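import Pool.Agent.L7h15.BK.End1
import Pool.Agent.K4H55.CX.Up

/-!
# The Birch and Swinnerton-Dyer rank conjecture for elliptic curves over imaginary quadratic fields, over their
# abelian extensions of 2-power degree

`K` is an imaginary quadratic field of class number one and `E : y² = x³ + a x + b` an elliptic curve over `K`
(not necessarily defined over `ℚ`, and without complex multiplication in general), which belongs to
a Bianchi newform `f` of weight two.  Suppose that `E(K)[2] = 0`, that the `2`-Selmer group of `E/K` is trivial, and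
that the central value of `E/K` is odd: the value `Φ(0)` of the primitive `Φ` of the harmonic differential of
`f` at the cusp `0` is not in `2 w Λ`, where `Λ ≅ ℤ` is the group of the values of `Φ` at the cusps `x/m`, `m`
prime to the level, and `w = #{u ∈ 𝓞 : u⁴ = 1}`.

A place `v ∤ 2(4a³ + 27b²)` of `K` is admissible if `x³ + a x + b` has no root modulo `v`.  Let `F` be the class field
over `K` of any finite group of characters of `2`-power order whose conductors are products of different
admissible places, such that the places `v ∣ 2(4a³ + 27b²)` split completely in `F`.  There is no bound for the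
degree and for the exponent of `Gal(F/K)`.

Theorem.  `E(F)` is finite, and the conclusion of the frozen statement `S16511` holds for `E` over `F`: the `L`-series
of `E/F` (Mathlib's `WeierstrassCurve.LSeries`) continues analytically from `Re s > 3/2` to a connected open set
containing `1`, and its order of vanishing at `s = 1` is the rank of `E(F)` (both are zero).

The proof.  `E(F)` is finite by the descent of helper55 (`Pool.Agent.K4H55.CX.fin_up`).  The characters of `Gal(F/K)` are
characters of `K` by the reciprocity law, and the decomposition law of `F/K` (norms and numbers of the places above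
`v`, ramified or not) follows from the theory of Hilbert and the duality of finite abelian groups; so the product of
the `L(E ⊗ χ, s)`, each of which is entire and not zero at `s = 1` by the congruences modulo the primes
above `2` of helper55 (`Pool.Agent.K4H55.CX.ab_unit`), is a product over the places of `F`.  At the places
`u ∤ 2(4a³ + 27b²)` its factor is that of Mathlib, by counting the points over the extensions of the finite fields; at the
finitely many other places both local factors are quotients without zeros and poles in `Re s > 1/2`, by Hasse's bound,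
which follows from the theorem of Stepanov for odd characteristic and is trivial for the fields with at most four
elements (the residue fields above `2`, as these places split completely).  Hasse's bound also gives the absolute
convergence of the `L`-series for `Re s > 3/2`.

(Numerically the central value is odd, for instance, for `K = ℚ(√-7)` and the curve `y² + y = x³ + x² - 9 x - 15` of
conductor `19`: there `Φ(0) = 0.2507… = 2 ω`, where `ω` generates `Λ`; the differences of the values of `Φ` at cusps are the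
multiples of `3 ω`.)
-/

set_option autoImplicit false

open NumberField IsDedekindDomain Matrix WeierstrassCurve Filter Topology
open scoped TensorProduct

namespace Pool.Agent.Results.MP_32c55d_nt.BianchiClassFields

/-- `K` is an imaginary quadratic field, `σ` is one of its two embeddings in `ℂ`, and `δ` generates the
different of `K`: an `x ∈ K` is in `𝓞` if and only if `Tr(x y / δ) ∈ ℤ` for all `y ∈ 𝓞`. -/
structure IsFieldData (K : Type) [Field K] [NumberField K] (σ : K →+* ℂ) (δ : K) : Prop where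
  quadratic : Module.finrank ℚ K = 2
  imaginary : ∃ x, (starRingEnd ℂ) (σ x) ≠ σ x
  different : ∀ x : K, (∃ a : 𝓞 K, (a : K) = x) ↔
    ∀ y : 𝓞 K, ∃ m : ℤ, Algebra.trace ℚ K (x * y / δ) = m

/-- `h(y) = ∫_0^∞ exp(-1/v - y v) dv = 2 y^(-1/2) K₁(2 √y)`, with the Bessel function `K₁`. -/
noncomputable def bessel (y : ℝ) : ℝ := ∫ v in Set.Ioi (0 : ℝ), Real.exp (-(1 / v) - y * v)

/-- The additive character `e(z) = exp(2πi (z/δ + conj (z/δ)))` of `ℂ`, trivial on `𝓞`. -/
noncomputable def addChar (δ z : ℂ) : ℂ :=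
  Complex.exp (2 * Real.pi * Complex.I * (z / δ + (starRingEnd ℂ) (z / δ)))

/-- The denominator `|c z + d|² + |c|² t²` of the action of the matrix `(a, b; c, d)` on the hyperbolic
space `{(z, t) : z ∈ ℂ, t > 0}`. -/
noncomputable def den (c d z : ℂ) (t : ℝ) : ℝ := ‖c * z + d‖ ^ 2 + ‖c‖ ^ 2 * t ^ 2

/-- The first coordinate `((a z + b) conj (c z + d) + a conj(c) t²) / (|c z + d|² + |c|² t²)` of the image
of `(z, t)` under the matrix `(a, b; c, d)`. -/
noncomputable def actZ (a b c d z : ℂ) (t : ℝ) : ℂ :=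
  ((a * z + b) * (starRingEnd ℂ) (c * z + d) + a * (starRingEnd ℂ) c * (t : ℂ) ^ 2) /
    (den c d z t : ℂ)

/-- The second coordinate, for a matrix of determinant one; in general it is `|ad - bc|` times this. -/
noncomputable def actT (c d z : ℂ) (t : ℝ) : ℝ := t / den c d z t

section field
variable {K : Type} [Field K] [NumberField K]

/-- The function `Φ(z, t) = ∑_{x ∈ 𝓞} c((x)) t² h(N(x) (2πt/|δ|)²) e(x z)
  = (|δ|/π) ∑_{x ≠ 0} (c((x))/|x|) t K₁(4π|x|t/|δ|) e(x z)` on the hyperbolic space, with the coefficients `c`.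
Up to a constant factor it is the primitive, zero at the cusp `∞`, of the harmonic differential of the
form of weight two with the Fourier coefficients `c`: its derivative by `t` is
`-4 ∑_{x ≠ 0} c((x)) t K₀(4π|x|t/|δ|) e(x z)`. -/
noncomputable def primitive (σ : K →+* ℂ) (δ : K) (c : Ideal (𝓞 K) → ℂ) (z : ℂ) (t : ℝ) : ℂ :=
  ∑' x : 𝓞 K, c (Ideal.span {x}) * ((t ^ 2 * bessel (Ideal.absNorm (Ideal.span {x}) *
    (2 * Real.pi * t / ‖σ δ‖) ^ 2) : ℝ) : ℂ) * addChar (σ δ) (σ x * z)

/-- The group `Λ` generated by the values of the primitive `Φ` at the cusps `x/m`, `m ≠ 0` prime to the level (that is,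
by the limits of `Φ(x/m, t)` for `t → 0`). -/
def Lam (σ : K →+* ℂ) (δ : K) (n : 𝓞 K) (c : Ideal (𝓞 K) → ℂ) : AddSubgroup ℂ :=
  AddSubgroup.closure {z | ∃ x m : 𝓞 K, m ≠ 0 ∧ IsCoprime m n ∧
    Tendsto (fun t => primitive σ δ c (σ x / σ m) t) (𝓝[>] 0) (𝓝 z)}

/-- The numbers `c(I)` are the Hecke eigenvalues of a Bianchi newform `f` of weight two, level `(n)` and
trivial character over `K`, with rational eigenvalues: they satisfy `c(𝓞) = 1`, the (trivial) bound `c(I) = O(N(I))`
and the Hecke relations `c(v I) = c(v) c(I)` for `v ∤ I`, `c(v² I) = c(v) c(v I) - N(v) c(I)` for the primes `v ∤ n`, and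
`c(v I) = c(v) c(I)` for `v ∣ n`; the differential `dΦ` of the function `Φ` with the coefficients `c` is
invariant under `Γ₀(n)`, that is, `Φ(γ P) - Φ(P)` is a constant for every `γ ∈ Γ₀(n)`; `dΦ` is an
eigenform, with the eigenvalue `±1`, of the Fricke involution `W = (0, -1; n, 0)`; and the group `Λ` of the values of `Φ` at
cusps is cyclic (this is so for rational eigenvalues, by multiplicity one and the theorem of Manin, Drinfeld and
Kurčanov: the quotient of `H₁(Γ₀(n), cusps; ℤ)` which belongs to `f` has rank one). -/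
structure IsNewform (σ : K →+* ℂ) (δ : K) (n : 𝓞 K) (c : Ideal (𝓞 K) → ℂ) : Prop where
  level : n ≠ 0
  zero : c ⊥ = 0
  one : c ⊤ = 1
  bound : ∃ C : ℝ, ∀ I, ‖c I‖ ≤ C * Ideal.absNorm I
  good : ∀ v : HeightOneSpectrum (𝓞 K), n ∉ v.asIdeal → ∀ I,
    (¬ v.asIdeal ∣ I → c (v.asIdeal * I) = c v.asIdeal * c I) ∧
    c (v.asIdeal * (v.asIdeal * I)) = c v.asIdeal * c (v.asIdeal * I) -
      Ideal.absNorm v.asIdeal * c I
  bad : ∀ v : HeightOneSpectrum (𝓞 K), n ∈ v.asIdeal → ∀ I,
    c (v.asIdeal * I) = c v.asIdeal * c I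
  invariant : ∃ κ : SpecialLinearGroup (Fin 2) (𝓞 K) → ℂ,
    ∀ γ : SpecialLinearGroup (Fin 2) (𝓞 K), n ∣ γ.1 1 0 → ∀ (z : ℂ) (t : ℝ), 0 < t →
      primitive σ δ c (actZ (σ (γ.1 0 0)) (σ (γ.1 0 1)) (σ (γ.1 1 0)) (σ (γ.1 1 1)) z t)
        (actT (σ (γ.1 1 0)) (σ (γ.1 1 1)) z t) = primitive σ δ c z t + κ γ
  fricke : ∃ w κ : ℂ, w * w = 1 ∧ ∀ (z : ℂ) (t : ℝ), 0 < t →
    primitive σ δ c (actZ 0 (-1) (σ n) 0 z t) (‖σ n‖ * actT (σ n) 0 z t) =
      -w * primitive σ δ c z t + κ
  cyclic : ∃ ω ∈ Lam σ δ n c, ∀ l ∈ Lam σ δ n c, ∃ j : ℤ, l = j * ω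

/-- The number `w` of the `u ∈ 𝓞` with `u⁴ = 1`: it is `4` for `K = ℚ(i)` and `2` otherwise. -/
noncomputable def fourth (K : Type) [Field K] : ℕ := Nat.card {u : 𝓞 K // u ^ 4 = 1}

/-- The central value is odd: `Φ(0)`, the limit of `Φ(0, t)` for `t → 0`, is not in `2 w Λ`. -/
def OddCentralValue (σ : K →+* ℂ) (δ : K) (n : 𝓞 K) (c : Ideal (𝓞 K) → ℂ) : Prop :=
  ∃ z₀ : ℂ, Tendsto (fun t => primitive σ δ c 0 t) (𝓝[>] 0) (𝓝 z₀) ∧
    ∀ y ∈ Lam σ δ n c, z₀ ≠ 2 * fourth K * y

/-- The curve `E : y² = x³ + a x + b` over `K`. -/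
def curve (a b : K) : WeierstrassCurve K := ⟨0, 0, 0, a, b⟩

open Classical in
/-- `f` is the newform of `E : y² = x³ + a x + b`: the Euler factors of `f` and of `E` agree at all the places `v` of
`K`, that is, the local polynomial of `E` at `v` (Mathlib's `WeierstrassCurve.localPolynomial`) is
`1 - c(v) X + N(v) X²`, without the last term if `v ∣ n`. -/
def IsNewformOf (a b n : 𝓞 K) (c : Ideal (𝓞 K) → ℂ) : Prop :=
  ∀ v : HeightOneSpectrum (𝓞 K),
    (((curve (a : K) (b : K)).baseChange (v.adicCompletion K)).localPolynomial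
      (v.adicCompletionIntegers K)).map (Int.castRingHom ℂ) =
      1 - Polynomial.C (c v.asIdeal) * Polynomial.X +
        Polynomial.C (if n ∈ v.asIdeal then 0 else (Ideal.absNorm v.asIdeal : ℂ)) *
          Polynomial.X ^ 2

section selmer
variable {L : Type} [Field L] [NumberField L] [Algebra K L]

/-- `L = K(θ)` is the cubic field of `E`: `θ³ + a θ + b = 0`, and every element of `L` is `u + v θ + w θ²` for
unique `u, v, w ∈ K`.  So `x³ + a x + b` is irreducible over `K`, that is, `E(K)[2] = 0`. -/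
structure IsCubicField (a b : 𝓞 K) (θ : L) : Prop where
  root : θ ^ 3 + algebraMap K L a * θ + algebraMap K L b = 0
  basis : ∀ β : L, ∃! t : K × K × K,
    β = algebraMap K L t.1 + algebraMap K L t.2.1 * θ + algebraMap K L t.2.2 * θ ^ 2

/-- The class of `α` in `(K_v ⊗ L)^×` modulo squares is in the group generated by the images of the points
`(x, y)`, `y ≠ 0`, of `E(K_v)` under the Kummer map `(x, y) ↦ x - θ`.  (This group is the image of `E(K_v)/2E(K_v)`, as
the map is a homomorphism and all classes contain points with `y ≠ 0`.) -/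
def LocalCondition (a b : 𝓞 K) (θ : L) (v : HeightOneSpectrum (𝓞 K)) (α : L) : Prop :=
  ∃ s : List (v.adicCompletion K),
    (∀ x ∈ s, ∃ y : v.adicCompletion K, y ≠ 0 ∧
      y ^ 2 = x ^ 3 + algebraMap K (v.adicCompletion K) a * x +
        algebraMap K (v.adicCompletion K) b) ∧
    IsSquare (((1 : v.adicCompletion K) ⊗ₜ[K] α) *
      (s.map fun x => x ⊗ₜ[K] (1 : L) - 1 ⊗ₜ[K] θ).prod)

/-- The `2`-Selmer group of `E/K` is trivial.  As `E(K)[2] = 0` and `K` has no real places, it is the group of the
classes of `α ∈ L^×` modulo squares such that the norm of `α` is a square, `w(α)` is even for all places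
`w ∤ 2(4a³ + 27b²)` of `L`, and `α` satisfies the local conditions at the places `v ∣ 2(4a³ + 27b²)` of `K`. -/
def TrivialSelmer (a b : 𝓞 K) (θ : L) : Prop :=
  ∀ α : L, α ≠ 0 → IsSquare (Algebra.norm K α) →
    (∀ w : HeightOneSpectrum (𝓞 L), algebraMap (𝓞 K) (𝓞 L) (2 * (4 * a ^ 3 + 27 * b ^ 2)) ∉
      w.asIdeal → IsSquare (w.valuation L α)) →
    (∀ v : HeightOneSpectrum (𝓞 K), 2 * (4 * a ^ 3 + 27 * b ^ 2) ∈ v.asIdeal →
      LocalCondition a b θ v α) → IsSquare α

end selmer

/-- The admissible places: `v ∤ 2(4a³ + 27b²)`, and `x³ + a x + b` has no root modulo `v`. -/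
def Admissible (a b : 𝓞 K) (v : HeightOneSpectrum (𝓞 K)) : Prop :=
  2 * (4 * a ^ 3 + 27 * b ^ 2) ∉ v.asIdeal ∧ ∀ x : 𝓞 K, x ^ 3 + a * x + b ∉ v.asIdeal

/-- `χ` is a character of `K` of `2`-power order and of conductor `∏_{v ∈ T} v`, as a function on `𝓞` (`K` has class
number one): a primitive character modulo the product of the `v ∈ T`, trivial on the units, and zero on the `x` which
are not prime to the conductor. -/
structure IsCharacter (T : Finset (HeightOneSpectrum (𝓞 K))) (χ : 𝓞 K → ℂ) : Prop where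
  one : χ 1 = 1
  mul : ∀ x y, χ (x * y) = χ x * χ y
  zero : ∀ x, χ x = 0 ↔ ∃ v ∈ T, x ∈ v.asIdeal
  periodic : ∀ x y, (∀ v ∈ T, x - y ∈ v.asIdeal) → χ x = χ y
  units : ∀ u, IsUnit u → χ u = 1
  primitive : ∀ v ∈ T, ∃ x, (∀ v' ∈ T, v' ≠ v → x - 1 ∈ v'.asIdeal) ∧ χ x ≠ 0 ∧ χ x ≠ 1
  order : ∃ k : ℕ, ∀ x, χ x ≠ 0 → χ x ^ 2 ^ k = 1

section extension

variable (F : Type) [Field F] [NumberField F] [Algebra K F]

/-- The places `u` of `F` above `v`. -/
def Above (v : HeightOneSpectrum (𝓞 K)) : Type :=
  {u : HeightOneSpectrum (𝓞 F) // u.asIdeal.comap (algebraMap (𝓞 K) (𝓞 F)) = v.asIdeal}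

/-- `F/K` is a finite Galois extension of `2`-power degree, unramified outside of the admissible places of `K`, and the
places `v ∣ 2(4a³ + 27b²)` split completely in `F` (there is an embedding of `F` in `K_v`). -/
structure IsTwoExtension (a b : 𝓞 K) : Prop where
  galois : IsGalois K F
  degree : ∃ k : ℕ, Module.finrank K F = 2 ^ k
  split : ∀ v : HeightOneSpectrum (𝓞 K), 2 * (4 * a ^ 3 + 27 * b ^ 2) ∈ v.asIdeal →
    Nonempty (F →ₐ[K] v.adicCompletion K)
  unramified : ∀ v : HeightOneSpectrum (𝓞 K), 2 * (4 * a ^ 3 + 27 * b ^ 2) ∉ v.asIdeal →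
    ¬ Admissible a b v → ∀ u : Above F v, ∀ x : K,
      u.1.valuation F (algebraMap K F x) = v.valuation K x

/-- The Frobenius automorphisms at the place `u` of `F` above `v`: the `t ∈ Gal(F/K)` with `t x = x ^ N(v)`
modulo `u` for all the integers `x` of `F`.  They are a coset of the inertia group of `u`. -/
def FrobSet (v : HeightOneSpectrum (𝓞 K)) (u : HeightOneSpectrum (𝓞 F)) : Set (F ≃ₐ[K] F) :=
  {t | ∀ x : 𝓞 F, t • x - x ^ Ideal.absNorm v.asIdeal ∈ u.asIdeal}

/-- `F` is the class field of a group of characters of `K` of `2`-power order, of conductors which are products of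
different admissible places: `Gal(F/K)` is abelian, and for each of its characters `ψ` there is such a character `χ` of
`K`, of conductor `∏_{v ∈ T} v`, with the law of reciprocity: `T` is the set of the places at which `ψ` is ramified
(not trivial on the inertia groups), and `ψ(t) = χ(v)` for all places `v ∉ T` of `K` and all
Frobenius automorphisms `t ∈ Gal(F/K)` at places of `F` above `v`. -/
structure IsClassField [IsPrincipalIdealRing (𝓞 K)] (a b : 𝓞 K) : Prop where
  abelian : ∀ s t : F ≃ₐ[K] F, s * t = t * s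
  reciprocity : ∀ ψ : (F ≃ₐ[K] F) →* ℂ, ∃ (T : Finset (HeightOneSpectrum (𝓞 K))) (χ : 𝓞 K → ℂ),
    IsCharacter T χ ∧ (∀ v ∈ T, Admissible a b v) ∧
    (∀ v ∈ T, ∀ u : Above F v, ∃ t : F ≃ₐ[K] F, (∀ x : 𝓞 F, t • x - x ∈ u.1.asIdeal) ∧ ψ t ≠ 1) ∧
    ∀ v : HeightOneSpectrum (𝓞 K), v ∉ T → ∀ (u : Above F v), ∀ t ∈ FrobSet F v u.1,
      ψ t = χ (Submodule.IsPrincipal.generator v.asIdeal)

end extension

end field

open scoped Classical in
/-- **Theorem.** Let `K` be an imaginary quadratic field of class number one, `E : y² = x³ + a x + b` an elliptic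
curve over `K` with the Bianchi newform `f` of level `(n)`, and suppose that `E(K)[2] = 0`, the `2`-Selmer group of
`E/K` is trivial, and the central value of `f` is odd.  Let `F/K` be a finite Galois extension of `2`-power degree,
unramified outside of the admissible places, in which the places `v ∣ 2(4a³ + 27b²)` of `K` split completely, and
which is the class field over `K` of a group of characters of `2`-power order, of conductors which are
products of different admissible places.  Then `E(F)` is finite, and the `L`-series of `E/F` continues analytically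
from `Re s > 3/2` to a connected open set containing `1`, where it vanishes to order exactly the rank of `E(F)`. -/
theorem result (K : Type) [Field K] [NumberField K] [IsPrincipalIdealRing (𝓞 K)] (σ : K →+* ℂ)
    (δ : K) (hK : IsFieldData K σ δ) (a b n : 𝓞 K) (hΔ : 4 * a ^ 3 + 27 * b ^ 2 ≠ 0)
    (c : Ideal (𝓞 K) → ℂ) (hf : IsNewform σ δ n c) (hE : IsNewformOf a b n c)
    (hodd : OddCentralValue σ δ n c)
    (L : Type) [Field L] [NumberField L] [Algebra K L] (θ : L)
    (hθ : IsCubicField a b θ) (hS : TrivialSelmer a b θ)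
    (F : Type) [Field F] [NumberField F] [Algebra K F]
    (hF : IsTwoExtension F a b) (hcl : IsClassField F a b)
    (E : WeierstrassCurve F) (hEF : E = (curve (a : K) (b : K)).map (algebraMap K F)) :
    Finite E.toAffine.Point ∧
      ∃ (U : Set ℂ) (Φ : ℂ → ℂ),
        IsOpen U ∧ IsConnected U ∧ {s : ℂ | (3 / 2 : ℝ) < s.re} ⊆ U ∧ (1 : ℂ) ∈ U ∧
        AnalyticOnNhd ℂ Φ U ∧ (∀ s : ℂ, (3 / 2 : ℝ) < s.re → Φ s = E.LSeries s) ∧
        (∀ r : ℕ, r < Module.finrank ℤ E.toAffine.Point → iteratedDeriv r Φ 1 = 0) ∧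
        iteratedDeriv (Module.finrank ℤ E.toAffine.Point) Φ 1 ≠ 0 := by
  classical
  have h : K4H55.BI.IQ K σ δ := ⟨hK.quadratic, hK.imaginary, inferInstance, hK.different⟩
  have hf' : K4H55.BI.BF σ δ n c := ⟨hf.level, hf.zero, hf.one, hf.bound, hf.good, hf.bad,
    hf.invariant, hf.fricke⟩
  have hcub : K4H55.BD.Cub K θ := by
    refine ⟨fun p q r h0 => ?_, fun β => ?_⟩
    · obtain ⟨t, ht, hu⟩ := hθ.basis 0
      have h1 := hu (p, q, r) h0.symm
      have h2 := hu (0, 0, 0) (by simp)
      have h3 := h1.trans h2.symm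
      simp only [Prod.mk.injEq] at h3
      exact h3
    · obtain ⟨t, ht, -⟩ := hθ.basis β
      exact ⟨t.1, t.2.1, t.2.2, ht⟩
  have hch : ∀ (T : Finset (HeightOneSpectrum (𝓞 K))) (χ : 𝓞 K → ℂ), IsCharacter T χ →
      K4H55.CX.CH T χ := fun T χ h1 =>
    ⟨h1.one, h1.mul, h1.zero, h1.periodic, h1.units, h1.primitive, h1.order⟩
  obtain ⟨ω, hω', hω⟩ := hf.cyclic
  obtain ⟨z, hz, hzo⟩ := hodd
  have hG := hF.galois
  obtain ⟨k, hk⟩ := hF.degree
  obtain ⟨h1, -, -⟩ := K4H55.CX.fin_up (F := F) hΔ hcub hθ.root hS hk hF.split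
    (fun u hu => by
      by_cases h3 : ∀ X : 𝓞 K, X ^ 3 + a * X + b ∉ (K4H55.BD.low (K := K) u).asIdeal
      · exact Or.inl h3
      · exact Or.inr fun x => hF.unramified _ hu (fun h4 => h3 h4.2) ⟨u, rfl⟩ x)
  have e : (curve (a : K) (b : K)).map (algebraMap K F) =
      K4H55.BD.crv (algebraMap K F (a : K)) (algebraMap K F (b : K)) := by
    unfold curve K4H55.BD.crv WeierstrassCurve.map
    simp
  have e2 : (curve (a : K) (b : K)).map (algebraMap K F) =
      L7h15.BK.cv (algebraMap K F (a : K)) (algebraMap K F (b : K)) := by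
    unfold curve L7h15.BK.cv WeierstrassCurve.map
    simp
  have hfin : Finite E.toAffine.Point := by
    rw [hEF, e]
    exact h1.1
  -- the local factors
  have hloc : ∀ v : HeightOneSpectrum (𝓞 K),
      c v.asIdeal = (W189.NF.aV (L7h15.BK.cv (a : K) (b : K)) v : ℂ) ∧
      (W189.NF.eV (L7h15.BK.cv (a : K) (b : K)) v : ℂ) =
        if n ∈ v.asIdeal then 0 else (Ideal.absNorm v.asIdeal : ℂ) := by
    intro v
    have h2 := hE v
    have h3 : curve (a : K) (b : K) = L7h15.BK.cv (a : K) (b : K) := rfl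
    rw [h3, W189.NF.localPolynomial_eq] at h2
    have h4 := congrArg (fun p => Polynomial.coeff p 1) h2
    have h5 := congrArg (fun p => Polynomial.coeff p 2) h2
    simp only [Polynomial.coeff_map, Polynomial.coeff_add, Polynomial.coeff_sub,
      Polynomial.coeff_C_mul, Polynomial.coeff_X_pow, Polynomial.coeff_X, Polynomial.coeff_one] at h4 h5
    norm_num at h4 h5
    exact ⟨h4.symm, h5⟩
  -- the characters
  choose T χ c1 c2 c3 c4 using fun ψ : (F ≃ₐ[K] F) →* ℂˣ =>
    hcl.reciprocity ((Units.coeHom ℂ).comp ψ)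
  have hR : ∀ ψ, L7h15.BK.Rc ψ (T ψ) (χ ψ) := by
    intro ψ
    refine ⟨hch _ _ (c1 ψ), fun v hv u hu => ?_, fun v hv u hu t ht => ?_⟩
    · obtain ⟨t, h2, h3⟩ := c3 ψ v hv ⟨u, hu⟩
      refine ⟨t, h2, fun h4 => h3 ?_⟩
      rw [MonoidHom.comp_apply, h4, map_one]
    · exact c4 ψ v hv ⟨u, hu⟩ t ht
  obtain ⟨U, Φ, k1, k2, k3, k4, k5, k6, k7⟩ := L7h15.BK.end1 h hf' hΔ hloc hz hω hω' hzo
    hcl.abelian hF.split hR (fun ψ v hv => c2 ψ v hv)
  have h0 : Module.finrank ℤ E.toAffine.Point = 0 := by
    apply Module.finrank_eq_zero_of_rank_eq_zero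
    rw [rank_eq_zero_iff]
    intro x
    refine ⟨(Nat.card E.toAffine.Point : ℤ), ?_, ?_⟩
    · exact_mod_cast Nat.card_pos.ne'
    · rw [natCast_zsmul, card_nsmul_eq_zero']
  refine ⟨hfin, U, Φ, k1, k2, k3, k4, k5, fun s hs => ?_, ?_, ?_⟩
  · rw [k6 s hs, hEF, e2]
  · intro r hr
    rw [h0] at hr
    exact absurd hr (Nat.not_lt_zero r)
  · rw [h0, iteratedDeriv_zero]
    exact k7

end Pool.Agent.Results.MP_32c55d_nt.BianchiClassFields
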