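import Pool.Agent.L7h15.OK.Alg
import Pool.Agent.L7h15.OA.End
import Pool.Agent.L7h65.OK.Lf

/-!
# The Birch and Swinnerton-Dyer rank conjecture for elliptic curves over imaginary quadratic fields, over their
# abelian extensions of odd prime power degree

`K` is an imaginary quadratic field of class number one and `E : y² = x³ + a x + b` an elliptic curve over `K`
(not necessarily defined over `ℚ`, and without complex multiplication in general), which belongs to
a Bianchi newform `f` of weight two.  Let `l` be an odd prime such that the `l`-Selmer group of `E/K` is trivial and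
`Φ(0) ∉ l Λ`, where `Φ(0)` is the value of the primitive `Φ` of the harmonic differential of `f` at the cusp `0`, and
`Λ ≅ ℤ` is the group of the values of `Φ` at the cusps `x/m`, `m` prime to the level.  (If `L(E/K, 1) ≠ 0`, then
`Φ(0) ≠ 0`, and the second condition holds for all but finitely many `l`.)

A place `v ∤ 6 l (4a³ + 27b²)` of `K` is admissible if the number of the points of `E` over the residue field of `v` is
prime to `l`.  Let `F` be the class field over `K` of any finite group of characters of `l`-power order whose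
conductors are products of different admissible places, such that the places `v ∣ 6 l (4a³ + 27b²)` split completely
in `F`.  There is no bound for the degree and for the exponent of `Gal(F/K)`.

Theorem.  `E(F)` is finite of order prime to `l`, and the conclusion of the frozen statement `S16511` holds for `E`
over `F`: the `L`-series of `E/F` (Mathlib's `WeierstrassCurve.LSeries`) continues analytically from `Re s > 3/2` to a
connected open set containing `1`, and its order of vanishing at `s = 1` is the rank of `E(F)` (both are zero).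

The case `l = 2` is `BianchiClassFields`, with a descent by `x - θ` in the cubic field of `E`.  The descent for odd `l`
is a different one, in terms of cocycles; it generalises the descent over `ℚ` of helper1, helper60 and helper65
(`Pool.Agent.L7h1.OL`), and was written with helper60 and helper65.  If the `l`-Selmer group of `E/F` is not trivial,
the `l`-group `Gal(F/K)` fixes a class in it which is not zero, and as `E(F)` has no point of order `l`, this class is
the restriction of a class over `K`.  It is locally trivial at the places which split, and at the places of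
good reduction which are unramified in `F`; at an admissible place its restriction to the inertia group is fixed by
the Frobenius automorphism, because the inertia group acts on the classes through an abelian extension, and so it is
zero.  By the theorem of Lang (on the points of `l`-power order) the class is locally trivial at all places, and
so it is zero by the hypothesis over `K`.

On the analytic side, the central values of the twists of `f` by the characters `χ` of `Gal(F/K)` are congruent to
`∏ (c(v) - 2) Φ(0)` modulo the primes above `l`, up to periods and Gauss sums; as `N(v) = 1` modulo `l` for the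
places `v` of the conductor, this is not zero modulo `l`.  The product of the `L(E ⊗ χ, s)` is the `L`-series of `E/F` by
the decomposition law (as in `BianchiClassFields`).
-/

set_option autoImplicit false

open NumberField IsDedekindDomain Matrix WeierstrassCurve Filter Topology
open scoped TensorProduct

namespace Pool.Agent.Results.MP_32c55d_nt.BianchiOddOrder

/-- `K` is an imaginary quadratic field, `σ` is one of its two embeddings in `ℂ`, and `δ` generates the
different of `K`: an `x ∈ K` is in `𝓞` if and only if `Tr(x y / δ) ∈ ℤ` for all `y ∈ 𝓞`. -/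
structure IsFieldData (K : Type) [Field K] [NumberField K] (σ : K →+* ℂ) (δ : K) : Prop where
  quadratic : Module.finrank ℚ K = 2
  imaginary : ∃ x, (starRingEnd ℂ) (σ x) ≠ σ x
  different : ∀ x : K, (∃ a : 𝓞 K, (a : K) = x) ↔
    ∀ y : 𝓞 K, ∃ m : ℤ, Algebra.trace ℚ K (x * y / δ) = m

/-- `h(y) = ∫_0^∞ exp(-1/v - y v) dv = 2 y^(-1/2) K₁(2 √y)`, with the Bessel function `K₁`. -/
noncomputable def bessel (y : ℝ) : ℝ := ∫ v in Set.Ioi (0 : ℝ), Real.exp (-(1 / v) - y * v)

/-- The additive character `e(z) = exp(2πi (z/δ + conj (z/δ)))` of `ℂ`, trivial on `𝓞`. -/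
noncomputable def addChar (δ z : ℂ) : ℂ :=
  Complex.exp (2 * Real.pi * Complex.I * (z / δ + (starRingEnd ℂ) (z / δ)))

/-- The denominator `|c z + d|² + |c|² t²` of the action of the matrix `(a, b; c, d)` on the hyperbolic
space `{(z, t) : z ∈ ℂ, t > 0}`. -/
noncomputable def den (c d z : ℂ) (t : ℝ) : ℝ := ‖c * z + d‖ ^ 2 + ‖c‖ ^ 2 * t ^ 2

/-- The first coordinate `((a z + b) conj (c z + d) + a conj(c) t²) / (|c z + d|² + |c|² t²)` of the image
of `(z, t)` under the matrix `(a, b; c, d)`. -/
noncomputable def actZ (a b c d z : ℂ) (t : ℝ) : ℂ :=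
  ((a * z + b) * (starRingEnd ℂ) (c * z + d) + a * (starRingEnd ℂ) c * (t : ℂ) ^ 2) /
    (den c d z t : ℂ)

/-- The second coordinate, for a matrix of determinant one; in general it is `|ad - bc|` times this. -/
noncomputable def actT (c d z : ℂ) (t : ℝ) : ℝ := t / den c d z t

section field
variable {K : Type} [Field K] [NumberField K]

/-- The function `Φ(z, t) = ∑_{x ∈ 𝓞} c((x)) t² h(N(x) (2πt/|δ|)²) e(x z)
  = (|δ|/π) ∑_{x ≠ 0} (c((x))/|x|) t K₁(4π|x|t/|δ|) e(x z)` on the hyperbolic space, with the coefficients `c`.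
Up to a constant factor it is the primitive, zero at the cusp `∞`, of the harmonic differential of the
form of weight two with the Fourier coefficients `c`: its derivative by `t` is
`-4 ∑_{x ≠ 0} c((x)) t K₀(4π|x|t/|δ|) e(x z)`. -/
noncomputable def primitive (σ : K →+* ℂ) (δ : K) (c : Ideal (𝓞 K) → ℂ) (z : ℂ) (t : ℝ) : ℂ :=
  ∑' x : 𝓞 K, c (Ideal.span {x}) * ((t ^ 2 * bessel (Ideal.absNorm (Ideal.span {x}) *
    (2 * Real.pi * t / ‖σ δ‖) ^ 2) : ℝ) : ℂ) * addChar (σ δ) (σ x * z)

/-- The group `Λ` generated by the values of the primitive `Φ` at the cusps `x/m`, `m ≠ 0` prime to the level (that is,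
by the limits of `Φ(x/m, t)` for `t → 0`). -/
def Lam (σ : K →+* ℂ) (δ : K) (n : 𝓞 K) (c : Ideal (𝓞 K) → ℂ) : AddSubgroup ℂ :=
  AddSubgroup.closure {z | ∃ x m : 𝓞 K, m ≠ 0 ∧ IsCoprime m n ∧
    Tendsto (fun t => primitive σ δ c (σ x / σ m) t) (𝓝[>] 0) (𝓝 z)}

/-- The numbers `c(I)` are the Hecke eigenvalues of a Bianchi newform `f` of weight two, level `(n)` and
trivial character over `K`, with rational eigenvalues: they satisfy `c(𝓞) = 1`, the (trivial) bound `c(I) = O(N(I))`
and the Hecke relations `c(v I) = c(v) c(I)` for `v ∤ I`, `c(v² I) = c(v) c(v I) - N(v) c(I)` for the primes `v ∤ n`, and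
`c(v I) = c(v) c(I)` for `v ∣ n`; the differential `dΦ` of the function `Φ` with the coefficients `c` is
invariant under `Γ₀(n)`, that is, `Φ(γ P) - Φ(P)` is a constant for every `γ ∈ Γ₀(n)`; `dΦ` is an
eigenform, with the eigenvalue `±1`, of the Fricke involution `W = (0, -1; n, 0)`; and the group `Λ` of the values of `Φ` at
cusps is cyclic (this is so for rational eigenvalues, by multiplicity one and the theorem of Manin, Drinfeld and
Kurčanov: the quotient of `H₁(Γ₀(n), cusps; ℤ)` which belongs to `f` has rank one). -/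
structure IsNewform (σ : K →+* ℂ) (δ : K) (n : 𝓞 K) (c : Ideal (𝓞 K) → ℂ) : Prop where
  level : n ≠ 0
  zero : c ⊥ = 0
  one : c ⊤ = 1
  bound : ∃ C : ℝ, ∀ I, ‖c I‖ ≤ C * Ideal.absNorm I
  good : ∀ v : HeightOneSpectrum (𝓞 K), n ∉ v.asIdeal → ∀ I,
    (¬ v.asIdeal ∣ I → c (v.asIdeal * I) = c v.asIdeal * c I) ∧
    c (v.asIdeal * (v.asIdeal * I)) = c v.asIdeal * c (v.asIdeal * I) -
      Ideal.absNorm v.asIdeal * c I
  bad : ∀ v : HeightOneSpectrum (𝓞 K), n ∈ v.asIdeal → ∀ I,
    c (v.asIdeal * I) = c v.asIdeal * c I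
  invariant : ∃ κ : SpecialLinearGroup (Fin 2) (𝓞 K) → ℂ,
    ∀ γ : SpecialLinearGroup (Fin 2) (𝓞 K), n ∣ γ.1 1 0 → ∀ (z : ℂ) (t : ℝ), 0 < t →
      primitive σ δ c (actZ (σ (γ.1 0 0)) (σ (γ.1 0 1)) (σ (γ.1 1 0)) (σ (γ.1 1 1)) z t)
        (actT (σ (γ.1 1 0)) (σ (γ.1 1 1)) z t) = primitive σ δ c z t + κ γ
  fricke : ∃ w κ : ℂ, w * w = 1 ∧ ∀ (z : ℂ) (t : ℝ), 0 < t →
    primitive σ δ c (actZ 0 (-1) (σ n) 0 z t) (‖σ n‖ * actT (σ n) 0 z t) =
      -w * primitive σ δ c z t + κ
  cyclic : ∃ ω ∈ Lam σ δ n c, ∀ l ∈ Lam σ δ n c, ∃ j : ℤ, l = j * ω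

/-- The central value is prime to `l`: `Φ(0)`, the limit of `Φ(0, t)` for `t → 0`, is not in `l Λ`. -/
def CentralValuePrimeTo (l : ℕ) (σ : K →+* ℂ) (δ : K) (n : 𝓞 K) (c : Ideal (𝓞 K) → ℂ) : Prop :=
  ∃ z₀ : ℂ, Tendsto (fun t => primitive σ δ c 0 t) (𝓝[>] 0) (𝓝 z₀) ∧
    ∀ y ∈ Lam σ δ n c, z₀ ≠ (l : ℂ) * y

/-- The curve `E : y² = x³ + a x + b` over `K`. -/
def curve (a b : K) : WeierstrassCurve K := ⟨0, 0, 0, a, b⟩

open Classical in
/-- `f` is the newform of `E : y² = x³ + a x + b`: the Euler factors of `f` and of `E` agree at all the places `v` of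
`K`, that is, the local polynomial of `E` at `v` (Mathlib's `WeierstrassCurve.localPolynomial`) is
`1 - c(v) X + N(v) X²`, without the last term if `v ∣ n`. -/
def IsNewformOf (a b n : 𝓞 K) (c : Ideal (𝓞 K) → ℂ) : Prop :=
  ∀ v : HeightOneSpectrum (𝓞 K),
    (((curve (a : K) (b : K)).baseChange (v.adicCompletion K)).localPolynomial
      (v.adicCompletionIntegers K)).map (Int.castRingHom ℂ) =
      1 - Polynomial.C (c v.asIdeal) * Polynomial.X +
        Polynomial.C (if n ∈ v.asIdeal then 0 else (Ideal.absNorm v.asIdeal : ℂ)) *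
          Polynomial.X ^ 2

section selmer

/-- The group `E(Ω)` of the points over an extension `Ω` of `K`. -/
abbrev Points (E : WeierstrassCurve K) (Ω : Type) [Field Ω] [Algebra K Ω] : Type :=
  (E.baseChange Ω).toAffine.Point

open scoped Classical in
/-- The homomorphism `E(Ω) → E(Ω')` given by a `K`-homomorphism `Ω → Ω'`, for example by an element of a Galois
group. -/
noncomputable def onPoints (E : WeierstrassCurve K) {Ω Ω' : Type} [Field Ω] [Field Ω'] [Algebra K Ω]
    [Algebra K Ω'] (φ : Ω →ₐ[K] Ω') : Points E Ω →+ Points E Ω' :=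
  Affine.Point.map (W' := E.toAffine) φ

open scoped Classical in
/-- The `l`-Selmer group of `E/K` is trivial: every continuous cocycle `f` of the absolute Galois group of `K` with
values in the points of order `l` whose restriction at every finite place `v` is the coboundary of a point over
an algebraic closure of `K_v`, is the coboundary of a point of order `l`.  (`K` has no real places.) -/
def TrivialSelmer (l : ℕ) (E : WeierstrassCurve K) : Prop :=
  ∀ f : (AlgebraicClosure K ≃ₐ[K] AlgebraicClosure K) → Points E (AlgebraicClosure K),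
    IsLocallyConstant f → (∀ s t, f (s * t) = f s + onPoints E s.toAlgHom (f t)) →
    (∀ s, l • f s = 0) →
    (∀ v : HeightOneSpectrum (𝓞 K),
      ∃ (ι : AlgebraicClosure K →ₐ[K] AlgebraicClosure (v.adicCompletion K))
        (P : Points E (AlgebraicClosure (v.adicCompletion K))),
        ∀ (t : AlgebraicClosure (v.adicCompletion K) ≃ₐ[v.adicCompletion K]
          AlgebraicClosure (v.adicCompletion K)) (s : AlgebraicClosure K ≃ₐ[K] AlgebraicClosure K),
          (∀ x, t (ι x) = ι (s x)) →
            onPoints E ι (f s) = onPoints E (t.toAlgHom.restrictScalars K) P - P) →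
    ∃ T : Points E (AlgebraicClosure K), l • T = 0 ∧ ∀ s, f s = onPoints E s.toAlgHom T - T

end selmer

/-- The admissible places: `v ∤ 6 l (4a³ + 27b²)`, and the number of the points of `E` over `𝓞/v` (with the
point at infinity) is prime to `l`. -/
def Admissible (l : ℕ) (a b : 𝓞 K) (v : HeightOneSpectrum (𝓞 K)) : Prop :=
  6 * (l : 𝓞 K) * (4 * a ^ 3 + 27 * b ^ 2) ∉ v.asIdeal ∧
    ¬ l ∣ Nat.card {x : (𝓞 K ⧸ v.asIdeal) × (𝓞 K ⧸ v.asIdeal) //
      x.2 ^ 2 = x.1 ^ 3 + Ideal.Quotient.mk v.asIdeal a * x.1 + Ideal.Quotient.mk v.asIdeal b} + 1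

/-- `χ` is a character of `K` of `l`-power order and of conductor `∏_{v ∈ T} v`, as a function on `𝓞` (`K` has class
number one): a primitive character modulo the product of the `v ∈ T`, trivial on the units, and zero on the `x` which
are not prime to the conductor. -/
structure IsCharacter (l : ℕ) (T : Finset (HeightOneSpectrum (𝓞 K))) (χ : 𝓞 K → ℂ) : Prop where
  one : χ 1 = 1
  mul : ∀ x y, χ (x * y) = χ x * χ y
  zero : ∀ x, χ x = 0 ↔ ∃ v ∈ T, x ∈ v.asIdeal
  periodic : ∀ x y, (∀ v ∈ T, x - y ∈ v.asIdeal) → χ x = χ y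
  units : ∀ u, IsUnit u → χ u = 1
  primitive : ∀ v ∈ T, ∃ x, (∀ v' ∈ T, v' ≠ v → x - 1 ∈ v'.asIdeal) ∧ χ x ≠ 0 ∧ χ x ≠ 1
  order : ∃ k : ℕ, ∀ x, χ x ≠ 0 → χ x ^ l ^ k = 1

section extension

variable (F : Type) [Field F] [NumberField F] [Algebra K F]

/-- The places `u` of `F` above `v`. -/
def Above (v : HeightOneSpectrum (𝓞 K)) : Type :=
  {u : HeightOneSpectrum (𝓞 F) // u.asIdeal.comap (algebraMap (𝓞 K) (𝓞 F)) = v.asIdeal}

/-- `F/K` is a finite Galois extension of `l`-power degree, unramified outside of the admissible places of `K`, and the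
places `v ∣ 6 l (4a³ + 27b²)` split completely in `F` (there is an embedding of `F` in `K_v`). -/
structure IsLExtension (l : ℕ) (a b : 𝓞 K) : Prop where
  galois : IsGalois K F
  degree : ∃ k : ℕ, Module.finrank K F = l ^ k
  split : ∀ v : HeightOneSpectrum (𝓞 K), 6 * (l : 𝓞 K) * (4 * a ^ 3 + 27 * b ^ 2) ∈ v.asIdeal →
    Nonempty (F →ₐ[K] v.adicCompletion K)
  unramified : ∀ v : HeightOneSpectrum (𝓞 K), 6 * (l : 𝓞 K) * (4 * a ^ 3 + 27 * b ^ 2) ∉ v.asIdeal →
    ¬ Admissible l a b v → ∀ u : Above F v, ∀ x : K,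
      u.1.valuation F (algebraMap K F x) = v.valuation K x

/-- The Frobenius automorphisms at the place `u` of `F` above `v`: the `t ∈ Gal(F/K)` with `t x = x ^ N(v)`
modulo `u` for all the integers `x` of `F`.  They are a coset of the inertia group of `u`. -/
def FrobSet (v : HeightOneSpectrum (𝓞 K)) (u : HeightOneSpectrum (𝓞 F)) : Set (F ≃ₐ[K] F) :=
  {t | ∀ x : 𝓞 F, t • x - x ^ Ideal.absNorm v.asIdeal ∈ u.asIdeal}

/-- `F` is the class field of a group of characters of `K` of `l`-power order, of conductors which are products of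
different admissible places: `Gal(F/K)` is abelian, and for each of its characters `ψ` there is such a character `χ` of
`K`, of conductor `∏_{v ∈ T} v`, with the law of reciprocity: `T` is the set of the places at which `ψ` is ramified
(not trivial on the inertia groups), and `ψ(t) = χ(v)` for all places `v ∉ T` of `K` and all
Frobenius automorphisms `t ∈ Gal(F/K)` at places of `F` above `v`. -/
structure IsClassField [IsPrincipalIdealRing (𝓞 K)] (l : ℕ) (a b : 𝓞 K) : Prop where
  abelian : ∀ s t : F ≃ₐ[K] F, s * t = t * s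
  reciprocity : ∀ ψ : (F ≃ₐ[K] F) →* ℂ, ∃ (T : Finset (HeightOneSpectrum (𝓞 K))) (χ : 𝓞 K → ℂ),
    IsCharacter l T χ ∧ (∀ v ∈ T, Admissible l a b v) ∧
    (∀ v ∈ T, ∀ u : Above F v, ∃ t : F ≃ₐ[K] F, (∀ x : 𝓞 F, t • x - x ∈ u.1.asIdeal) ∧ ψ t ≠ 1) ∧
    ∀ v : HeightOneSpectrum (𝓞 K), v ∉ T → ∀ (u : Above F v), ∀ t ∈ FrobSet F v u.1,
      ψ t = χ (Submodule.IsPrincipal.generator v.asIdeal)

end extension

end field

open scoped Classical in
/-- **Theorem.** Let `K` be an imaginary quadratic field of class number one, `E : y² = x³ + a x + b` an elliptic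
curve over `K` with the Bianchi newform `f` of level `(n)`, and let `l` be an odd prime such that the `l`-Selmer group of
`E/K` is trivial and the central value of `f` is prime to `l`.  Let `F/K` be a finite Galois extension of
`l`-power degree, unramified outside of the admissible places, in which the places `v ∣ 6 l (4a³ + 27b²)` of `K` split
completely, and which is the class field over `K` of a group of characters of `l`-power order, of conductors
which are products of different admissible places.  Then `E(F)` is finite of order prime to `l`, and the `L`-series of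
`E/F` continues analytically from `Re s > 3/2` to a connected open set containing `1`, where it vanishes to
order exactly the rank of `E(F)`. -/
theorem result (K : Type) [Field K] [NumberField K] [IsPrincipalIdealRing (𝓞 K)] (σ : K →+* ℂ)
    (δ : K) (hK : IsFieldData K σ δ) (a b n : 𝓞 K) (hΔ : 4 * a ^ 3 + 27 * b ^ 2 ≠ 0)
    (c : Ideal (𝓞 K) → ℂ) (hf : IsNewform σ δ n c) (hE : IsNewformOf a b n c)
    (l : ℕ) (hl : l.Prime) (hl2 : l ≠ 2) (hlc : CentralValuePrimeTo l σ δ n c)
    (hS : TrivialSelmer l (curve (a : K) (b : K)))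
    (F : Type) [Field F] [NumberField F] [Algebra K F]
    (hF : IsLExtension F l a b) (hcl : IsClassField F l a b)
    (E : WeierstrassCurve F) (hEF : E = (curve (a : K) (b : K)).map (algebraMap K F)) :
    Finite E.toAffine.Point ∧ ¬ l ∣ Nat.card E.toAffine.Point ∧
      ∃ (U : Set ℂ) (Φ : ℂ → ℂ),
        IsOpen U ∧ IsConnected U ∧ {s : ℂ | (3 / 2 : ℝ) < s.re} ⊆ U ∧ (1 : ℂ) ∈ U ∧
        AnalyticOnNhd ℂ Φ U ∧ (∀ s : ℂ, (3 / 2 : ℝ) < s.re → Φ s = E.LSeries s) ∧
        (∀ r : ℕ, r < Module.finrank ℤ E.toAffine.Point → iteratedDeriv r Φ 1 = 0) ∧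
        iteratedDeriv (Module.finrank ℤ E.toAffine.Point) Φ 1 ≠ 0 := by
  classical
  have h : K4H55.BI.IQ K σ δ := ⟨hK.quadratic, hK.imaginary, inferInstance, hK.different⟩
  have hf' : K4H55.BI.BF σ δ n c := ⟨hf.level, hf.zero, hf.one, hf.bound, hf.good, hf.bad,
    hf.invariant, hf.fricke⟩
  have hquad : Algebra.IsQuadraticExtension ℚ K := ⟨hK.quadratic⟩
  have hGQ : IsGalois ℚ K := inferInstance
  have hch : ∀ (T : Finset (HeightOneSpectrum (𝓞 K))) (χ : 𝓞 K → ℂ), IsCharacter l T χ →
      L7h15.OA.CHl l T χ := fun T χ h1 =>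
    ⟨h1.one, h1.mul, h1.zero, h1.periodic, h1.units, h1.primitive, h1.order⟩
  obtain ⟨ω, hω', hω⟩ := hf.cyclic
  obtain ⟨z, hz, hzo⟩ := hlc
  have hG := hF.galois
  obtain ⟨k, hk⟩ := hF.degree
  -- the Selmer group
  have hS' : L7h15.OK.SelTriv l (L7h15.OK.EV (a : K) (b : K)) K := by
    intro f h1 h2 h3
    exact hS f h1.lc h1.mul h2 h3
  obtain ⟨hfin', hcard'⟩ := L7h15.OK.alg L7h65.OK.s_LF hl hl2 hΔ hS' (F := F) hk hcl.abelian hF.split
    (fun v hv => by
      by_cases h3 : Admissible l a b v
      · exact Or.inr h3.2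
      · exact Or.inl fun u hu x => hF.unramified v hv h3 ⟨u, hu⟩ x)
  have e2 : (curve (a : K) (b : K)).map (algebraMap K F) =
      L7h15.BK.cv (algebraMap K F (a : K)) (algebraMap K F (b : K)) := by
    unfold curve L7h15.BK.cv WeierstrassCurve.map
    simp
  have e3 : E = (L7h15.OK.EV (a : K) (b : K)).baseChange F := hEF
  have hfin : Finite E.toAffine.Point := by
    rw [e3]
    exact hfin'
  have hcard : ¬ l ∣ Nat.card E.toAffine.Point := by
    rw [e3]
    exact hcard'
  -- the local factors
  have hloc : ∀ v : HeightOneSpectrum (𝓞 K),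
      c v.asIdeal = (W189.NF.aV (L7h15.BK.cv (a : K) (b : K)) v : ℂ) ∧
      (W189.NF.eV (L7h15.BK.cv (a : K) (b : K)) v : ℂ) =
        if n ∈ v.asIdeal then 0 else (Ideal.absNorm v.asIdeal : ℂ) := by
    intro v
    have h2 := hE v
    have h3 : curve (a : K) (b : K) = L7h15.BK.cv (a : K) (b : K) := rfl
    rw [h3, W189.NF.localPolynomial_eq] at h2
    have h4 := congrArg (fun p => Polynomial.coeff p 1) h2
    have h5 := congrArg (fun p => Polynomial.coeff p 2) h2
    simp only [Polynomial.coeff_map, Polynomial.coeff_add, Polynomial.coeff_sub,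
      Polynomial.coeff_C_mul, Polynomial.coeff_X_pow, Polynomial.coeff_X, Polynomial.coeff_one] at h4 h5
    norm_num at h4 h5
    exact ⟨h4.symm, h5⟩
  -- the characters
  choose T χ c1 c2 c3 c4 using fun ψ : (F ≃ₐ[K] F) →* ℂˣ =>
    hcl.reciprocity ((Units.coeHom ℂ).comp ψ)
  have hR : ∀ ψ, L7h15.OA.Rcl l ψ (T ψ) (χ ψ) := by
    intro ψ
    refine ⟨hch _ _ (c1 ψ), fun v hv u hu => ?_, fun v hv u hu t ht => ?_⟩
    · obtain ⟨t, h2, h3⟩ := c3 ψ v hv ⟨u, hu⟩
      refine ⟨t, h2, fun h4 => h3 ?_⟩
      rw [MonoidHom.comp_apply, h4, map_one]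
    · exact c4 ψ v hv ⟨u, hu⟩ t ht
  have hmul : ∀ v : HeightOneSpectrum (𝓞 K), 2 * (4 * a ^ 3 + 27 * b ^ 2) ∈ v.asIdeal →
      6 * (l : 𝓞 K) * (4 * a ^ 3 + 27 * b ^ 2) ∈ v.asIdeal := by
    intro v hv
    have e : 6 * (l : 𝓞 K) * (4 * a ^ 3 + 27 * b ^ 2) =
        (3 * (l : 𝓞 K)) * (2 * (4 * a ^ 3 + 27 * b ^ 2)) := by ring
    rw [e]
    exact v.asIdeal.mul_mem_left _ hv
  obtain ⟨U, Φ, k1, k2, k3, k4, k5, k6, k7⟩ := L7h15.OA.end_l h hf' hl hΔ hloc hz hω hω' hzo
    hcl.abelian (fun v hv => hF.split v (hmul v hv)) hR (fun ψ v hv => by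
      obtain ⟨h2, h3⟩ := c2 ψ v hv
      exact ⟨fun h4 => h2 (hmul v h4), h3⟩)
  have h0 : Module.finrank ℤ E.toAffine.Point = 0 := by
    apply Module.finrank_eq_zero_of_rank_eq_zero
    rw [rank_eq_zero_iff]
    intro x
    refine ⟨(Nat.card E.toAffine.Point : ℤ), ?_, ?_⟩
    · exact_mod_cast Nat.card_pos.ne'
    · rw [natCast_zsmul, card_nsmul_eq_zero']
  refine ⟨hfin, hcard, U, Φ, k1, k2, k3, k4, k5, fun s hs => ?_, ?_, ?_⟩
  · rw [k6 s hs, hEF, e2]
  · intro r hr
    rw [h0] at hr
    exact absurd hr (Nat.not_lt_zero r)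
  · rw [h0, iteratedDeriv_zero]
    exact k7

end Pool.Agent.Results.MP_32c55d_nt.BianchiOddOrder
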