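import Pool.Agent.L7h81.UB.Main

/-!
# The Birch and Swinnerton-Dyer rank conjecture for a uniform positive proportion of the abelian extensions of
# an imaginary quadratic field in every group of characters

`K` is an imaginary quadratic field of class number one, and `E_i : y² = x³ + a_i x + b_i`, `i = 1, …, m`, are
elliptic curves over `K` (not necessarily defined over `ℚ`, and without complex multiplication in general), which
belong to Bianchi newforms of weight two.  The only hypotheses at an odd prime `l` are: `L(E_i/K, 1) ≠ 0`, and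
the `l`-Selmer groups of the `E_i/K` are trivial.  A place `v ∤ 6 l (4a_i³ + 27b_i²)` of `K` is admissible if the
numbers of the points of the `E_i` over the residue field of `v` are prime to `l`.  Let `n` and `r` be given.

Theorem.  (1) There is a number `V` such that for every group `H`, finite or infinite and as sparse as one likes, of
characters of `K` of order dividing `l ^ n` whose conductors are products of different admissible places, the
following holds for a proportion at least `2 ^ (-V)` of the `r`-tuples in `H`: for every class field `F/K` of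
characters in the group generated by the tuple and all `i`, the group `E_i(F)` is finite of order prime to `l`, and
the conclusion of the frozen statement `S16511` holds for `E_i` over `F`: the `L`-series of `E_i/F` (Mathlib's
`WeierstrassCurve.LSeries`) continues analytically from `Re s > 3/2` to a connected open set containing `1`, and
its order of vanishing at `s = 1` is the rank of `E_i(F)` (both are zero).  (2) Every infinite such group `H` has an
infinite subgroup `H₀` such that this holds for all tuples in `H₀`, of any length.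

In `BianchiOddOrder` the central value of `E/K` is prime to `l` (not only different from zero), there is one curve,
and all places dividing `6 l (4a³ + 27b²)` are assumed to split in `F`; here this is a consequence of the
reciprocity law for the fields that we find.  Over `ℚ` the theorem is `MP_f50388_nt.UniformProportionOddPrime`.

The proof.  Let `f_i` be the newform of `E_i`, and `Φ_i` the primitive of its harmonic differential.  For
a character `χ` of conductor `m` the value `L(f_i ⊗ χ, 1)` is, up to a nonzero factor, the sum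
`β_i(χ) = ∑ χ⁻¹(x) Φ_i(x/m)` over the classes `x` modulo `m`.  By the Hecke relations, the sum with a larger
modulus `m q₁ … q_t` is `β_i(χ) ∏ (c_i(q_j) - χ(q_j) - χ⁻¹(q_j))`, and for admissible `q_j` the factors are units at
a maximal ideal `P` of a finite extension `R` of `ℤ` above `l`.  For a finite set of characters and a common modulus the
sums are combinations of characters of the group `H` with coefficients in a finitely generated `R`-module
which does not depend on `H`; as `Φ_i(0) ≠ 0`, the product of the sums for all the characters in the group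
generated by the tuple is not contained in `P ^ (V+1)` times this module at the trivial tuple, and for a combination of
characters of an `l`-group this gives a set of at most `2 ^ V` corrections.  The characters in `H` with
`χ(v) = 1` at the places `v ∣ 6 l (4a_i³ + 27b_i²)` are a subgroup of index at most `l ^ (n s)`, `s` the number of these
places; these places split completely in the class fields of this subgroup (the inertia group and the
Frobenius automorphism are trivial), and the descent of `BianchiOddOrder` applies.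
-/

set_option autoImplicit false

open NumberField IsDedekindDomain Matrix WeierstrassCurve Filter Topology
open scoped TensorProduct

namespace Pool.Agent.Results.MP_32c55d_nt.BianchiUniformProportion

/-- `K` is an imaginary quadratic field, `σ` is one of its two embeddings in `ℂ`, and `δ` generates the
different of `K`: an `x ∈ K` is in `𝓞` if and only if `Tr(x y / δ) ∈ ℤ` for all `y ∈ 𝓞`. -/
structure IsFieldData (K : Type) [Field K] [NumberField K] (σ : K →+* ℂ) (δ : K) : Prop where
  quadratic : Module.finrank ℚ K = 2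
  imaginary : ∃ x, (starRingEnd ℂ) (σ x) ≠ σ x
  different : ∀ x : K, (∃ a : 𝓞 K, (a : K) = x) ↔
    ∀ y : 𝓞 K, ∃ m : ℤ, Algebra.trace ℚ K (x * y / δ) = m

/-- `h(y) = ∫_0^∞ exp(-1/v - y v) dv = 2 y^(-1/2) K₁(2 √y)`, with the Bessel function `K₁`. -/
noncomputable def bessel (y : ℝ) : ℝ := ∫ v in Set.Ioi (0 : ℝ), Real.exp (-(1 / v) - y * v)

/-- The additive character `e(z) = exp(2πi (z/δ + conj (z/δ)))` of `ℂ`, trivial on `𝓞`. -/
noncomputable def addChar (δ z : ℂ) : ℂ :=
  Complex.exp (2 * Real.pi * Complex.I * (z / δ + (starRingEnd ℂ) (z / δ)))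

/-- The denominator `|c z + d|² + |c|² t²` of the action of the matrix `(a, b; c, d)` on the hyperbolic
space `{(z, t) : z ∈ ℂ, t > 0}`. -/
noncomputable def den (c d z : ℂ) (t : ℝ) : ℝ := ‖c * z + d‖ ^ 2 + ‖c‖ ^ 2 * t ^ 2

/-- The first coordinate `((a z + b) conj (c z + d) + a conj(c) t²) / (|c z + d|² + |c|² t²)` of the image
of `(z, t)` under the matrix `(a, b; c, d)`. -/
noncomputable def actZ (a b c d z : ℂ) (t : ℝ) : ℂ :=
  ((a * z + b) * (starRingEnd ℂ) (c * z + d) + a * (starRingEnd ℂ) c * (t : ℂ) ^ 2) /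
    (den c d z t : ℂ)

/-- The second coordinate, for a matrix of determinant one; in general it is `|ad - bc|` times this. -/
noncomputable def actT (c d z : ℂ) (t : ℝ) : ℝ := t / den c d z t

section field
variable {K : Type} [Field K] [NumberField K]

/-- The function `Φ(z, t) = ∑_{x ∈ 𝓞} c((x)) t² h(N(x) (2πt/|δ|)²) e(x z)
  = (|δ|/π) ∑_{x ≠ 0} (c((x))/|x|) t K₁(4π|x|t/|δ|) e(x z)` on the hyperbolic space, with the coefficients `c`.
Up to a constant factor it is the primitive, zero at the cusp `∞`, of the harmonic differential of the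
form of weight two with the Fourier coefficients `c`: its derivative by `t` is
`-4 ∑_{x ≠ 0} c((x)) t K₀(4π|x|t/|δ|) e(x z)`. -/
noncomputable def primitive (σ : K →+* ℂ) (δ : K) (c : Ideal (𝓞 K) → ℂ) (z : ℂ) (t : ℝ) : ℂ :=
  ∑' x : 𝓞 K, c (Ideal.span {x}) * ((t ^ 2 * bessel (Ideal.absNorm (Ideal.span {x}) *
    (2 * Real.pi * t / ‖σ δ‖) ^ 2) : ℝ) : ℂ) * addChar (σ δ) (σ x * z)

/-- The numbers `c(I)` are the Hecke eigenvalues of a Bianchi newform `f` of weight two, level `(n)` and
trivial character over `K`: they satisfy `c(𝓞) = 1`, the (trivial) bound `c(I) = O(N(I))`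
and the Hecke relations `c(v I) = c(v) c(I)` for `v ∤ I`, `c(v² I) = c(v) c(v I) - N(v) c(I)` for the primes `v ∤ n`, and
`c(v I) = c(v) c(I)` for `v ∣ n`; the differential `dΦ` of the function `Φ` with the coefficients `c` is
invariant under `Γ₀(n)`, that is, `Φ(γ P) - Φ(P)` is a constant for every `γ ∈ Γ₀(n)`; and `dΦ` is an
eigenform, with the eigenvalue `±1`, of the Fricke involution `W = (0, -1; n, 0)`. -/
structure IsNewform (σ : K →+* ℂ) (δ : K) (n : 𝓞 K) (c : Ideal (𝓞 K) → ℂ) : Prop where
  level : n ≠ 0
  zero : c ⊥ = 0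
  one : c ⊤ = 1
  bound : ∃ C : ℝ, ∀ I, ‖c I‖ ≤ C * Ideal.absNorm I
  good : ∀ v : HeightOneSpectrum (𝓞 K), n ∉ v.asIdeal → ∀ I,
    (¬ v.asIdeal ∣ I → c (v.asIdeal * I) = c v.asIdeal * c I) ∧
    c (v.asIdeal * (v.asIdeal * I)) = c v.asIdeal * c (v.asIdeal * I) -
      Ideal.absNorm v.asIdeal * c I
  bad : ∀ v : HeightOneSpectrum (𝓞 K), n ∈ v.asIdeal → ∀ I,
    c (v.asIdeal * I) = c v.asIdeal * c I
  invariant : ∃ κ : SpecialLinearGroup (Fin 2) (𝓞 K) → ℂ,
    ∀ γ : SpecialLinearGroup (Fin 2) (𝓞 K), n ∣ γ.1 1 0 → ∀ (z : ℂ) (t : ℝ), 0 < t →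
      primitive σ δ c (actZ (σ (γ.1 0 0)) (σ (γ.1 0 1)) (σ (γ.1 1 0)) (σ (γ.1 1 1)) z t)
        (actT (σ (γ.1 1 0)) (σ (γ.1 1 1)) z t) = primitive σ δ c z t + κ γ
  fricke : ∃ w κ : ℂ, w * w = 1 ∧ ∀ (z : ℂ) (t : ℝ), 0 < t →
    primitive σ δ c (actZ 0 (-1) (σ n) 0 z t) (‖σ n‖ * actT (σ n) 0 z t) =
      -w * primitive σ δ c z t + κ

/-- The curve `E : y² = x³ + a x + b` over `K`. -/
def curve (a b : K) : WeierstrassCurve K := ⟨0, 0, 0, a, b⟩

open Classical in
/-- `f` is the newform of `E : y² = x³ + a x + b`: the Euler factors of `f` and of `E` agree at all the places `v` of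
`K`, that is, the local polynomial of `E` at `v` (Mathlib's `WeierstrassCurve.localPolynomial`) is
`1 - c(v) X + N(v) X²`, without the last term if `v ∣ n`. -/
def IsNewformOf (a b n : 𝓞 K) (c : Ideal (𝓞 K) → ℂ) : Prop :=
  ∀ v : HeightOneSpectrum (𝓞 K),
    (((curve (a : K) (b : K)).baseChange (v.adicCompletion K)).localPolynomial
      (v.adicCompletionIntegers K)).map (Int.castRingHom ℂ) =
      1 - Polynomial.C (c v.asIdeal) * Polynomial.X +
        Polynomial.C (if n ∈ v.asIdeal then 0 else (Ideal.absNorm v.asIdeal : ℂ)) *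
          Polynomial.X ^ 2

/-- The `L`-series of `E` (over the number field `F`) continues analytically from `Re s > 3/2` to a connected open set
containing `1`, and its order of vanishing at `s = 1` is `ρ`. -/
def AnalyticRank {F : Type} [Field F] [NumberField F] (E : WeierstrassCurve F) (ρ : ℕ) : Prop :=
  ∃ (U : Set ℂ) (Φ : ℂ → ℂ),
    IsOpen U ∧ IsConnected U ∧ {s : ℂ | (3 / 2 : ℝ) < s.re} ⊆ U ∧ (1 : ℂ) ∈ U ∧
    AnalyticOnNhd ℂ Φ U ∧ (∀ s : ℂ, (3 / 2 : ℝ) < s.re → Φ s = E.LSeries s) ∧
    (∀ r : ℕ, r < ρ → iteratedDeriv r Φ 1 = 0) ∧ iteratedDeriv ρ Φ 1 ≠ 0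

section selmer

/-- The group `E(Ω)` of the points over an extension `Ω` of `K`. -/
abbrev Points (E : WeierstrassCurve K) (Ω : Type) [Field Ω] [Algebra K Ω] : Type :=
  (E.baseChange Ω).toAffine.Point

open scoped Classical in
/-- The homomorphism `E(Ω) → E(Ω')` given by a `K`-homomorphism `Ω → Ω'`, for example by an element of a Galois
group. -/
noncomputable def onPoints (E : WeierstrassCurve K) {Ω Ω' : Type} [Field Ω] [Field Ω'] [Algebra K Ω]
    [Algebra K Ω'] (φ : Ω →ₐ[K] Ω') : Points E Ω →+ Points E Ω' :=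
  Affine.Point.map (W' := E.toAffine) φ

open scoped Classical in
/-- The `l`-Selmer group of `E/K` is trivial: every continuous cocycle `f` of the absolute Galois group of `K` with
values in the points of order `l` whose restriction at every finite place `v` is the coboundary of a point over
an algebraic closure of `K_v`, is the coboundary of a point of order `l`.  (`K` has no real places.) -/
def TrivialSelmer (l : ℕ) (E : WeierstrassCurve K) : Prop :=
  ∀ f : (AlgebraicClosure K ≃ₐ[K] AlgebraicClosure K) → Points E (AlgebraicClosure K),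
    IsLocallyConstant f → (∀ s t, f (s * t) = f s + onPoints E s.toAlgHom (f t)) →
    (∀ s, l • f s = 0) →
    (∀ v : HeightOneSpectrum (𝓞 K),
      ∃ (ι : AlgebraicClosure K →ₐ[K] AlgebraicClosure (v.adicCompletion K))
        (P : Points E (AlgebraicClosure (v.adicCompletion K))),
        ∀ (t : AlgebraicClosure (v.adicCompletion K) ≃ₐ[v.adicCompletion K]
          AlgebraicClosure (v.adicCompletion K)) (s : AlgebraicClosure K ≃ₐ[K] AlgebraicClosure K),
          (∀ x, t (ι x) = ι (s x)) →
            onPoints E ι (f s) = onPoints E (t.toAlgHom.restrictScalars K) P - P) →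
    ∃ T : Points E (AlgebraicClosure K), l • T = 0 ∧ ∀ s, f s = onPoints E s.toAlgHom T - T

end selmer

/-- The admissible places for one curve: `v ∤ 6 l (4a³ + 27b²)`, and the number of the points of `E` over `𝓞/v` (with
the point at infinity) is prime to `l`. -/
def Admissible (l : ℕ) (a b : 𝓞 K) (v : HeightOneSpectrum (𝓞 K)) : Prop :=
  6 * (l : 𝓞 K) * (4 * a ^ 3 + 27 * b ^ 2) ∉ v.asIdeal ∧
    ¬ l ∣ Nat.card {x : (𝓞 K ⧸ v.asIdeal) × (𝓞 K ⧸ v.asIdeal) //
      x.2 ^ 2 = x.1 ^ 3 + Ideal.Quotient.mk v.asIdeal a * x.1 + Ideal.Quotient.mk v.asIdeal b} + 1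

/-- The families `c = (c_v)` of characters `c_v` of the groups `(𝓞/v)ˣ`.  The family with `c_v = 1` except for
the places `v` of a finite set stands for the character `∏ c_v` modulo the product of these places; if it is trivial
on the units of `𝓞`, this is a character of (the ideals of) `K` of squarefree conductor. -/
abbrev Fam (K : Type) [Field K] [NumberField K] : Type :=
  (v : HeightOneSpectrum (𝓞 K)) → (𝓞 K ⧸ v.asIdeal)ˣ →* ℂˣ

open Classical in
/-- The set of the `v` with `c_v ≠ 1` (if it is finite). -/
noncomputable def supp (c : Fam K) : Finset (HeightOneSpectrum (𝓞 K)) :=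
  if h : {v | c v ≠ 1}.Finite then h.toFinset else ∅

/-- The norm of the conductor. -/
noncomputable def conductorNorm (c : Fam K) : ℕ := ∏ v ∈ supp c, Ideal.absNorm v.asIdeal

open Classical in
/-- The value of the character at `x`. -/
noncomputable def value (c : Fam K) (x : 𝓞 K) : ℂ :=
  ∏ v ∈ supp c, if h : IsUnit (Ideal.Quotient.mk v.asIdeal x) then (c v h.unit : ℂ) else 0

/-- `H` is a group of characters of `K` of order dividing `l ^ n`, of conductors which are products of different
places, admissible for all the curves. -/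
structure IsCharGroup (l : ℕ) {m : ℕ} (a b : Fin m → 𝓞 K) (n : ℕ) (H : Subgroup (Fam K)) : Prop where
  pow : ∀ c ∈ H, c ^ (l ^ n) = 1
  finite : ∀ c ∈ H, {v | c v ≠ 1}.Finite
  units : ∀ c ∈ H, ∀ u : 𝓞 K, IsUnit u → value c u = 1
  admissible : ∀ c ∈ H, ∀ v, c v ≠ 1 → ∀ i, Admissible l (a i) (b i) v

section extension

variable (F : Type) [Field F] [NumberField F] [Algebra K F]

/-- The places `u` of `F` above `v`. -/
def Above (v : HeightOneSpectrum (𝓞 K)) : Type :=
  {u : HeightOneSpectrum (𝓞 F) // u.asIdeal.comap (algebraMap (𝓞 K) (𝓞 F)) = v.asIdeal}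

/-- The Frobenius automorphisms at the place `u` of `F` above `v`: the `t ∈ Gal(F/K)` with `t x = x ^ N(v)`
modulo `u` for all the integers `x` of `F`.  They are a coset of the inertia group of `u`. -/
def FrobSet (v : HeightOneSpectrum (𝓞 K)) (u : HeightOneSpectrum (𝓞 F)) : Set (F ≃ₐ[K] F) :=
  {t | ∀ x : 𝓞 F, t • x - x ^ Ideal.absNorm v.asIdeal ∈ u.asIdeal}

/-- `F` is a class field of characters of `K` in the group generated by `χ_1, …, χ_r`: `F/K` is an abelian
extension of `l`-power degree, and for each character `ψ` of `Gal(F/K)` there is a character `χ = ∏ χ_j ^ J_j` of `K` with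
the law of reciprocity: the places of the conductor of `χ` are those at which `ψ` is ramified (not trivial on
the inertia groups), and `ψ(t) = χ(v)` for all other places `v` of `K` and all Frobenius automorphisms
`t ∈ Gal(F/K)` at places of `F` above `v`.  (By class field theory these are the fields between `K` and the
class field of the group generated by `χ_1, …, χ_r`.) -/
structure IsClassField [IsPrincipalIdealRing (𝓞 K)] (l : ℕ) {r : ℕ} (χ : Fin r → Fam K) : Prop where
  galois : IsGalois K F
  abelian : ∀ s t : F ≃ₐ[K] F, s * t = t * s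
  degree : ∃ k : ℕ, Module.finrank K F = l ^ k
  reciprocity : ∀ ψ : (F ≃ₐ[K] F) →* ℂ, ∃ J : Fin r → ℕ,
    (∀ v : HeightOneSpectrum (𝓞 K), (∏ j, χ j ^ J j) v ≠ 1 → ∀ u : Above F v,
      ∃ t : F ≃ₐ[K] F, (∀ x : 𝓞 F, t • x - x ∈ u.1.asIdeal) ∧ ψ t ≠ 1) ∧
    ∀ v : HeightOneSpectrum (𝓞 K), (∏ j, χ j ^ J j) v = 1 → ∀ u : Above F v, ∀ t ∈ FrobSet F v u.1,
      ψ t = value (∏ j, χ j ^ J j) (Submodule.IsPrincipal.generator v.asIdeal)

open Classical in
/-- The conclusion for the curve `E` over `K` and the field `F`: `E(F)` is finite of order prime to `l`, and the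
rank conjecture holds for `E` over `F` (with rank zero). -/
def RankZeroOver (l : ℕ) (E : WeierstrassCurve K) : Prop :=
  Finite (E.map (algebraMap K F)).toAffine.Point ∧
  ¬ l ∣ Nat.card (E.map (algebraMap K F)).toAffine.Point ∧
  Module.finrank ℤ (E.map (algebraMap K F)).toAffine.Point = 0 ∧
  AnalyticRank (E.map (algebraMap K F)) (Module.finrank ℤ (E.map (algebraMap K F)).toAffine.Point)

end extension

/-- The conclusion for a tuple of characters: for all the class fields `F` and all the curves. -/
def AllRankZero [IsPrincipalIdealRing (𝓞 K)] (l : ℕ) {m : ℕ} (a b : Fin m → 𝓞 K) {r : ℕ}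
    (χ : Fin r → Fam K) : Prop :=
  ∀ (F : Type) [Field F] [NumberField F] [Algebra K F], IsClassField F l χ →
    ∀ i, RankZeroOver F l (curve (a i : K) (b i : K))

/-- The set of the `r`-tuples of elements of `H`. -/
def Tuples (H : Subgroup (Fam K)) (r : ℕ) : Set (Fin r → Fam K) := {c | ∀ j, c j ∈ H}

/-- The property `P` holds for a proportion at least `2 ^ (-V)` of the `r`-tuples in `H`: there is a set
`S` of at most `2 ^ V` tuples in `H` such that every tuple in `H` can be multiplied by an element of `S`
so that the product has the property `P`; so the proportion of the tuples with `P` is at least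
`2 ^ (-V)` if `H` is finite, and if `H` is infinite, the number of the tuples with product of the norms of the
conductors at most `X` is at most `2 ^ V` times the number of the tuples with `P` and with product of
the norms of the conductors at most `C X`, `C` independent of `X`. -/
def ManyTuples (V : ℕ) (H : Subgroup (Fam K)) (r : ℕ) (P : (Fin r → Fam K) → Prop) : Prop :=
  (∃ S : Finset (Fin r → Fam K), S.card ≤ 2 ^ V ∧ (S : Set (Fin r → Fam K)) ⊆ Tuples H r ∧
    ∀ c ∈ Tuples H r, ∃ k ∈ S, P (fun j => c j * k j)) ∧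
  ((H : Set (Fam K)).Finite → (Tuples H r).ncard ≤ 2 ^ V * {c | c ∈ Tuples H r ∧ P c}.ncard) ∧
  ∃ C : ℕ, ∀ X : ℕ, {c | c ∈ Tuples H r ∧ ∏ j, conductorNorm (c j) ≤ X}.ncard ≤
    2 ^ V * {c | (c ∈ Tuples H r ∧ P c) ∧ ∏ j, conductorNorm (c j) ≤ C * X}.ncard

end field

theorem rec_of {K : Type} [Field K] [NumberField K] [IsPrincipalIdealRing (𝓞 K)] {l r : ℕ}
    {χ : Fin r → Fam K} {F : Type} [Field F] [NumberField F] [Algebra K F]
    (h : IsClassField F l χ) : Pool.Agent.L7h81.UB.Rec F χ := by
  intro ψ
  obtain ⟨J, h1, h2⟩ := h.reciprocity ((Units.coeHom ℂ).comp ψ)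
  refine ⟨J, fun v hv u hu => ?_, fun v hv u hu t ht => ?_⟩
  · obtain ⟨t, h3, h4⟩ := h1 v hv ⟨u, hu⟩
    refine ⟨t, h3, fun h5 => h4 ?_⟩
    rw [MonoidHom.comp_apply, h5, map_one]
  · exact h2 v hv ⟨u, hu⟩ t ht

open Classical in
theorem concl_of {K : Type} [Field K] [NumberField K] [IsPrincipalIdealRing (𝓞 K)] {l : ℕ}
    {a b : 𝓞 K} {F : Type} [Field F] [NumberField F] [Algebra K F]
    (h : Pool.Agent.L7h81.UB.Concl l a b F) : RankZeroOver F l (curve (a : K) (b : K)) := by
  obtain ⟨⟨hfin', hcard'⟩, U, Φ, k1, k2, k3, k4, k5, k6, k7⟩ := h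
  have e2 : (curve (a : K) (b : K)).map (algebraMap K F) =
      L7h15.BK.cv (algebraMap K F (a : K)) (algebraMap K F (b : K)) := by
    unfold curve L7h15.BK.cv WeierstrassCurve.map
    simp
  have e3 : (curve (a : K) (b : K)).map (algebraMap K F) =
      (L7h15.OK.EV (a : K) (b : K)).baseChange F := rfl
  have hfin : Finite ((curve (a : K) (b : K)).map (algebraMap K F)).toAffine.Point := by
    rw [e3]
    exact hfin'
  have hcard : ¬ l ∣ Nat.card ((curve (a : K) (b : K)).map (algebraMap K F)).toAffine.Point := by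
    rw [e3]
    exact hcard'
  have h0 : Module.finrank ℤ ((curve (a : K) (b : K)).map (algebraMap K F)).toAffine.Point = 0 := by
    apply Module.finrank_eq_zero_of_rank_eq_zero
    rw [rank_eq_zero_iff]
    intro x
    refine ⟨(Nat.card ((curve (a : K) (b : K)).map (algebraMap K F)).toAffine.Point : ℤ), ?_, ?_⟩
    · exact_mod_cast Nat.card_pos.ne'
    · rw [natCast_zsmul, card_nsmul_eq_zero']
  refine ⟨hfin, hcard, h0, U, Φ, k1, k2, k3, k4, k5, fun s hs => ?_, ?_, ?_⟩
  · rw [k6 s hs, e2]
  · intro r hr
    rw [h0] at hr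
    exact absurd hr (Nat.not_lt_zero r)
  · rw [h0, iteratedDeriv_zero]
    exact k7

/-- **Theorem.** Let `K` be an imaginary quadratic field of class number one, `E_i : y² = x³ + a_i x + b_i`,
`i = 1, …, m`, elliptic curves over `K` with Bianchi newforms `f_i` of levels `(N_i)`, and `l` an odd prime such
that the analytic ranks of the `E_i/K` are zero and the `l`-Selmer groups of the `E_i/K` are trivial.
(1) For all `n`, `r` there is `V` such that for every group `H` of characters of `K` of order dividing
`l ^ n` and of conductors which are products of different admissible places, for a proportion at least `2 ^ (-V)` of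
the tuples `χ_1, …, χ_r` in `H` the following holds for every class field `F` of characters in the group
generated by `χ_1, …, χ_r` and all `i`: `E_i(F)` is finite of order prime to `l`, and the `L`-series of `E_i/F`
continues analytically from `Re s > 3/2` to a connected open set containing `1`, where it vanishes to order exactly the
rank of `E_i(F)`, which is zero.  (2) Every infinite such group `H` has an infinite subgroup `H₀` such that this holds for
all tuples in `H₀`, of any length. -/
theorem result (K : Type) [Field K] [NumberField K] [IsPrincipalIdealRing (𝓞 K)] (σ : K →+* ℂ)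
    (δ : K) (hK : IsFieldData K σ δ) (l : ℕ) (hl : l.Prime) (hl2 : l ≠ 2) (m : ℕ)
    (a b N : Fin m → 𝓞 K) (hΔ : ∀ i, 4 * a i ^ 3 + 27 * b i ^ 2 ≠ 0)
    (c : Fin m → Ideal (𝓞 K) → ℂ) (hf : ∀ i, IsNewform σ δ (N i) (c i))
    (hE : ∀ i, IsNewformOf (a i) (b i) (N i) (c i))
    (h0 : ∀ i, AnalyticRank (curve (a i : K) (b i : K)) 0)
    (hS : ∀ i, TrivialSelmer l (curve (a i : K) (b i : K))) (n : ℕ) :
    (∀ r : ℕ, ∃ V : ℕ, ∀ H : Subgroup (Fam K), IsCharGroup l a b n H →
      ManyTuples V H r (AllRankZero l a b)) ∧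
    ∀ H : Subgroup (Fam K), IsCharGroup l a b n H → (H : Set (Fam K)).Infinite →
      ∃ H₀ : Subgroup (Fam K), H₀ ≤ H ∧ (H₀ : Set (Fam K)).Infinite ∧
        ∀ r : ℕ, ∀ χ ∈ Tuples H₀ r, AllRankZero l a b χ := by
  classical
  have h : K4H55.BI.IQ K σ δ := ⟨hK.quadratic, hK.imaginary, inferInstance, hK.different⟩
  have hf' : ∀ i, K4H55.BI.BF σ δ (N i) (c i) := fun i => ⟨(hf i).level, (hf i).zero, (hf i).one,
    (hf i).bound, (hf i).good, (hf i).bad, (hf i).invariant, (hf i).fricke⟩
  have hquad : Algebra.IsQuadraticExtension ℚ K := ⟨hK.quadratic⟩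
  have hGQ : IsGalois ℚ K := inferInstance
  have hS' : ∀ i, L7h15.OK.SelTriv l (L7h15.OK.EV (a i : K) (b i : K)) K := by
    intro i f h1 h2 h3
    exact hS i f h1.lc h1.mul h2 h3
  have hloc : ∀ i, ∀ v : HeightOneSpectrum (𝓞 K),
      c i v.asIdeal = (W189.NF.aV (L7h15.BK.cv (a i : K) (b i : K)) v : ℂ) ∧
      (W189.NF.eV (L7h15.BK.cv (a i : K) (b i : K)) v : ℂ) =
        if N i ∈ v.asIdeal then 0 else (Ideal.absNorm v.asIdeal : ℂ) := by
    intro i v
    have h2 := hE i v
    have h3 : curve (a i : K) (b i : K) = L7h15.BK.cv (a i : K) (b i : K) := rfl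
    rw [h3, W189.NF.localPolynomial_eq] at h2
    have h4 := congrArg (fun p => Polynomial.coeff p 1) h2
    have h5 := congrArg (fun p => Polynomial.coeff p 2) h2
    simp only [Polynomial.coeff_map, Polynomial.coeff_add, Polynomial.coeff_sub,
      Polynomial.coeff_C_mul, Polynomial.coeff_X_pow, Polynomial.coeff_X, Polynomial.coeff_one] at h4 h5
    norm_num at h4 h5
    exact ⟨h4.symm, h5⟩
  have hfv : ∀ i, K4H55.BI.fv (K4H55.BI.ordK h) (fun x => c i (Ideal.span {x})) 0 ≠ 0 := by
    intro i
    obtain ⟨U, Φ, -, k2, k3, k4, k5, k6, -, k8⟩ := h0 i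
    rw [iteratedDeriv_zero] at k8
    exact L7h81.UB.fv_ne h (hf' i) (hloc i) k2 k3 k4 k5 k6 k8
  have hHK : ∀ H : Subgroup (Fam K), IsCharGroup l a b n H → L7h81.UB.HK l n a b H := fun H hH =>
    ⟨hH.pow, hH.finite, hH.units, fun e he v hv i => hH.admissible e he v hv i⟩
  refine ⟨fun r => ?_, fun H hH hinf => ?_⟩
  · obtain ⟨V, hV⟩ := L7h81.UB.uniK h a b N c hΔ hf' hloc hfv hl hl2 hS' n r
    refine ⟨V, fun H hH => ?_⟩
    obtain ⟨S, h1, h2, h3⟩ := hV H (hHK H hH)
    have h4 : ∀ e : Fin r → Fam K, (∀ j, e j ∈ H) → ∃ x ∈ S, AllRankZero l a b (fun j => e j * x j) := by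
      intro e he
      obtain ⟨x, hx, h5⟩ := h3 e he
      refine ⟨x, hx, fun F _ _ _ hF i => ?_⟩
      have := hF.galois
      exact concl_of (h5 F hF.abelian hF.degree (rec_of hF) i)
    exact ⟨⟨S, h1, fun x hx => h2 x hx, h4⟩, L7h81.UB.many_tuples hH.finite S h1 h2 h4⟩
  · obtain ⟨H₀, h1, h2, h3⟩ := L7h81.UB.towK h a b N c hΔ hf' hloc hfv hl hl2 hS' n H (hHK H hH) hinf
    refine ⟨H₀, h1, h2, fun r χ hχ F _ _ _ hF i => ?_⟩
    have := hF.galois
    exact concl_of (h3 r χ hχ F hF.abelian hF.degree (rec_of hF) i)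

end Pool.Agent.Results.MP_32c55d_nt.BianchiUniformProportion
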