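import Pool.Agent.L7h3.QX.Fin
import Pool.Agent.L7h3.QX.Tame
import Pool.Agent.Y699.Cls

/-!
# The rank conjecture of Birch and Swinnerton-Dyer for one seventh of the elliptic curves over `ℚ(i)`
# with `j = 1728`, and over abelian extensions of exponent four

`K` is a number field with an isomorphism `e` of the ring `ℤ[i]` of Gaussian integers with its ring
of integers (so `K = ℚ(i)`).  Every elliptic curve over `K` with `j = 1728` is isomorphic to
`E_D : y² = x³ + D x` for exactly one Gaussian integer `D` that no fourth power of a prime divides.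
The class: `D` is odd (of odd norm), squarefree and not congruent to `± 1` modulo `4`; these are three
quarters of all the odd squarefree `D`.  `D` is *good* if it is in the class and is not a product
`d d'`, `d ≡ 1 mod 4`, `d ≠ 1`, with `d'` a square modulo every prime divisor of `d` and `d` a square
modulo every prime divisor of `d'` (this means that the descent by the endomorphism `1 + i` is as
small as possible).

1. The proportion of the good `D` in the class, ordered by norm, tends to
   `∏_{i ≥ 0} (1 - 2^{-(2 i + 1)}) = 0.4194...`.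
2. At least one seventh of all the elliptic curves over `ℚ(i)` with `j = 1728`, ordered by the norm of
   `D`, are `E_D` with good `D`.
3. Let `D` be good, `R` a finite set such that the product of `D` and of the elements of any subset of
   `R` is good and divisible by or a nonresidue modulo all the prime divisors of the elements of `R`.
   Let `F ⊇ K` be generated by any fourth roots of elements of `R` and any square roots of `δ ≠ 0` all
   of whose prime factors `π` satisfy: for every subset of `R`, the product of it and `D` is divisible by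
   `π` or a nonresidue modulo `π`.  (There are no conditions at `2`.)  Then `E_D(F)` is finite, the
   L-series of `E_D` over `F` extends analytically to `Re s > 1/2` and does not vanish at `s = 1`.
   This is the conclusion of the frozen statement `S16511` for the pair `(F, E_D)`; with `R = ∅` and
   `F = K` it is the conclusion for `(K, E_D)`.
4. Let `D` be good with a prime divisor whose conjugate does not divide `D`.  Then there are
   infinitely many prime numbers `q ≡ 7 mod 8` such that all the finite sets `R` of the `-q` have the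
   property in 3: so `F` can be generated over `K` by any number of fourth roots and square roots of
   different `-q`, with Galois group `(ℤ/4)^k × (ℤ/2)^m` over `K` for arbitrary `k` and `m`.

Proof.  Write `D = i^k D₀`, `D₀ ≡ 1 mod 2 + 2i`.  `k` even: then `N(D₀) ≡ 5 mod 8`, and the curves over `K`
are treated by project QD (`MP_f50388_nt.QuarticExtensionsOfGaussianField`).  New here: `k` odd.  The
Hecke character has conductor `8 D₀`.  Let `℘'² = 4 ℘³ - 4 ℘` with period `Ω` and `e = ℘(Ω/2)`.  The
central value is a sum over the Gaussian integers modulo `D₀` of values of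
`s₁ (x - ε)/(x² - 2 e x - 1) ± s₂ (x + ε)/(x² + 2 e x - 1)` or
`s₀ s₂ (x - ε)/(x² - 2 e x - 1) ± s₀ s₁ (x + ε)/(x² + 2 e x - 1)`, where `ε² = -1`, `x = ℘(2 z)`,
`s₀ = (℘² + 1)/℘'`, `s₁ = (℘² + 2 e ℘ - 1)/℘'`, `s₂ = (℘² - 2 e ℘ - 1)/℘'`, times the quartic symbol.
Times `√2` these functions are congruent to one at the division points of odd order at the primes
above `2`, and a congruence between the values for different exponents shows, if
`N(π) ≡ 5 mod 8` for a prime divisor `π`, that the value of the L-function is `(1 + i)^(n-1)` times a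
number congruent to the determinant of the Laplacian of the graph of the quadratic symbols reduced by
one more vertex, joined to the `π` with `N(π) ≡ 5 mod 8`.  This determinant is odd exactly for the good
`D`, and the descent by `1 + i` gives the finiteness of the points.  The step from `K` to `F`: induction
over a tower of quadratic extensions; `y² = x³ + D x` over `F(t)`, `t² ∈ F`, decomposes into the curve and
its twist by `t²`, and for fourth roots the twist by `t² = √ρ` is `y² = x³ + D ρ x`, again a curve over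
`K`.  The factors above `2`: Hasse's bound for supersingular curves in characteristic two.  Part 1:
equidistribution of the quadratic symbols (bilinear sums over boxes), and the probability that the
Laplacian of a random symmetric completion (with one more vertex) has the smallest possible kernel.

Joint work of helper3 (statements, towers, criterion, leaves, assembly), helper23 (limits), helper65
(descent at `1 + i`, places above two, constants), helper73 (determinants, counting, averages), helper77
(exact proportion), helper89 (congruence of the functions), helper93 (Hecke characters, central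
values), helper97 (main congruence, reciprocity, criterion, leaves), and of the authors of project QD
(also helper32, helper76).
-/

set_option autoImplicit false

namespace Pool.Agent.Results.MP_32c55d_nt.QuarticTwistsOneSeventh

open NumberField IsDedekindDomain

/-- The curve `y² = x³ + D x` over the extension `F` of `K = ℚ(i)`. -/
noncomputable def curve {K : Type} [Field K] [NumberField K] (e : GaussianInt ≃+* 𝓞 K)
    (F : Type) [Field F] [Algebra K F] (D : GaussianInt) : WeierstrassCurve F :=
  ⟨0, 0, 0, algebraMap K F (algebraMap (𝓞 K) K (e D)), 0⟩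

open scoped Classical in
/-- The conclusion of the frozen statement `S16511` for `(F, E)`: the L-series of `E` continues
analytically from `Re s > 3/2` to a connected open set containing `1`, where its order of vanishing
is the rank of `E(F)`. -/
def RankConjecture {F : Type} [Field F] [NumberField F] (E : WeierstrassCurve F) : Prop :=
  ∃ (U : Set ℂ) (Φ : ℂ → ℂ),
    IsOpen U ∧ IsConnected U ∧ {s : ℂ | (3 / 2 : ℝ) < s.re} ⊆ U ∧ (1 : ℂ) ∈ U ∧
    AnalyticOnNhd ℂ Φ U ∧ (∀ s : ℂ, (3 / 2 : ℝ) < s.re → Φ s = E.LSeries s) ∧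
    (∀ r : ℕ, r < Module.finrank ℤ E.toAffine.Point → iteratedDeriv r Φ 1 = 0) ∧
    iteratedDeriv (Module.finrank ℤ E.toAffine.Point) Φ 1 ≠ 0

/-- `D` is not zero and no fourth power of a prime divides it. -/
def FourthPowerFree (D : GaussianInt) : Prop := D ≠ 0 ∧ ∀ π : GaussianInt, Prime π → ¬ π ^ 4 ∣ D

/-- All the parameters `D` of norm at most `X`; each of them is one elliptic curve over `ℚ(i)` with
`j = 1728`, up to isomorphism. -/
def Family (X : ℕ) : Set GaussianInt := {D | FourthPowerFree D ∧ D.norm ≤ X}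

/-- The class: `D` is squarefree, of odd norm and not `± 1` modulo `4`. -/
def InClass (D : GaussianInt) : Prop :=
  Squarefree D ∧ D.norm % 2 = 1 ∧ ¬ (4 : GaussianInt) ∣ D - 1 ∧ ¬ (4 : GaussianInt) ∣ D + 1

/-- `D` is a square modulo `π`. -/
def SquareMod (D π : GaussianInt) : Prop := ∃ x : GaussianInt, π ∣ x ^ 2 - D

/-- The good elements of the class: there is no factorization `D = d d'`, `d ≡ 1 mod 4`, `d ≠ 1`, such
that `d'` is a square modulo the prime divisors of `d` and `d` is a square modulo the prime divisors of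
`d'`. -/
def Good (D : GaussianInt) : Prop :=
  InClass D ∧ ∀ d d' : GaussianInt, D = d * d' → (4 : GaussianInt) ∣ d - 1 →
    (∀ π : GaussianInt, Prime π → π ∣ d → SquareMod d' π) →
    (∀ π : GaussianInt, Prime π → π ∣ d' → SquareMod d π) → d = 1

/-- `D` is divisible by `π` or a quadratic nonresidue modulo `π`. -/
def Compatible (D π : GaussianInt) : Prop := π ∣ D ∨ ¬ SquareMod D π

/-- The sets of the elements whose fourth roots are adjoined: the product of `D` and of the elements of
every subset of `R` is good, and it is divisible by or a nonresidue modulo every prime divisor of an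
element of `R`. -/
def QuarticSet (D : GaussianInt) (R : Finset GaussianInt) : Prop :=
  (∀ J ⊆ R, Good (D * ∏ ρ ∈ J, ρ)) ∧
    ∀ ρ ∈ R, ∀ π : GaussianInt, Prime π → π ∣ ρ → ∀ J ⊆ R, Compatible (D * ∏ ρ ∈ J, ρ) π

/-- The elements whose square roots are adjoined: `δ ≠ 0`, and for every prime divisor `π` of `δ` the
product of `D` and of the elements of every subset of `R` is divisible by `π` or a nonresidue modulo
`π`. -/
def Quadratic (D : GaussianInt) (R : Finset GaussianInt) (δ : GaussianInt) : Prop :=
  δ ≠ 0 ∧ ∀ π : GaussianInt, Prime π → π ∣ δ → ∀ J ⊆ R, Compatible (D * ∏ ρ ∈ J, ρ) π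

/-- The case of additive reduction at all the places above `2`, where the L-series extends to an entire
function: `D ≡ 1 mod 2 + 2i`, `N(D) ≡ 13 mod 16`, the elements of `R` are `1` modulo `8`, and the elements
whose square roots are adjoined are squarefree and `1` modulo `4`. -/
def Additive {K : Type} [Field K] [NumberField K] (e : GaussianInt ≃+* 𝓞 K) {F : Type} [Field F]
    [Algebra K F] (D : GaussianInt) (R : Finset GaussianInt) (T : Finset F) : Prop :=
  (⟨2, 2⟩ : GaussianInt) ∣ D - 1 ∧ D.norm % 16 = 13 ∧ (∀ ρ ∈ R, (8 : GaussianInt) ∣ ρ - 1) ∧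
    ∀ t ∈ T, (∃ δ : GaussianInt, Quadratic D R δ ∧ Squarefree δ ∧ (4 : GaussianInt) ∣ δ - 1 ∧
      t ^ 2 = algebraMap K F (algebraMap (𝓞 K) K (e δ))) ∨
        ∃ ρ ∈ R, t ^ 4 = algebraMap K F (algebraMap (𝓞 K) K (e ρ))

open scoped Classical in
/-- The statement for one `D`.

* If `D` has a prime divisor whose conjugate does not divide `D`, then there are infinitely many `-q`,
  `q ≡ 7 mod 8` a prime number, such that all the finite sets `R` of them are a `QuarticSet`.
* For `K = ℚ(i)` (every number field `K` with an isomorphism `e` of `ℤ[i]` with its ring of integers),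
  every `QuarticSet` `R`, and every number field `F ⊇ K` that is generated over `K` by elements `t`
  with `t² = δ` for some `δ` with `Quadratic D R δ`, or with `t⁴ ∈ R`: `E_D(F)` is finite, the L-series
  of `E_D` over `F` converges absolutely for `Re s > 3/2` and extends analytically to `Re s > 1/2`, is
  not zero at `1` (in the `Additive` case it extends to an entire function), and `RankConjecture` holds
  for `E_D` over `F`. -/
def Proved (D : GaussianInt) : Prop :=
  ((∃ π : GaussianInt, Prime π ∧ π ∣ D ∧ ¬ star π ∣ D) → ∃ P : Set GaussianInt, P.Infinite ∧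
    (∀ ρ ∈ P, ∃ q : ℕ, q.Prime ∧ q % 8 = 7 ∧ ρ = -(q : GaussianInt)) ∧
    ∀ R : Finset GaussianInt, (R : Set GaussianInt) ⊆ P → QuarticSet D R) ∧
  ∀ (K : Type) [Field K] [NumberField K] (e : GaussianInt ≃+* 𝓞 K) (R : Finset GaussianInt),
    QuarticSet D R → ∀ (F : Type) [Field F] [NumberField F] [Algebra K F] (T : Finset F),
      (∀ t ∈ T, (∃ δ : GaussianInt, Quadratic D R δ ∧
        t ^ 2 = algebraMap K F (algebraMap (𝓞 K) K (e δ))) ∨
        ∃ ρ ∈ R, t ^ 4 = algebraMap K F (algebraMap (𝓞 K) K (e ρ))) →
      IntermediateField.adjoin K (T : Set F) = ⊤ →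
      Finite (curve e F D).toAffine.Point ∧
      (∃ L : ℂ → ℂ, DifferentiableOn ℂ L {s : ℂ | 1 / 2 < s.re} ∧ L 1 ≠ 0 ∧
        ∀ s : ℂ, 3 / 2 < s.re →
          LSeriesSummable ((fun n : ℤ => (n : ℂ)) ∘ (curve e F D).LFunction) s ∧
            L s = (curve e F D).LSeries s) ∧
      (Additive e D R T → ∃ L : ℂ → ℂ, Differentiable ℂ L ∧ L 1 ≠ 0 ∧
        ∀ s : ℂ, 3 / 2 < s.re → L s = (curve e F D).LSeries s) ∧
      RankConjecture (curve e F D)

open scoped Classical in
theorem finrank_zero {F : Type} [Field F] (E : WeierstrassCurve F) (h : Finite E.toAffine.Point) :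
    Module.finrank ℤ E.toAffine.Point = 0 := by
  refine Module.finrank_eq_zero_of_rank_eq_zero ?_
  rw [rank_eq_zero_iff]
  intro x
  obtain ⟨n, hn, h0⟩ := isOfFinAddOrder_iff_nsmul_eq_zero.1 (isOfFinAddOrder_of_finite x)
  exact ⟨n, by positivity, by rw [natCast_zsmul]; exact h0⟩

theorem rank_of {F : Type} [Field F] [NumberField F] (E : WeierstrassCurve F)
    (h : Finite E.toAffine.Point) {L : ℂ → ℂ} (hL : DifferentiableOn ℂ L {s : ℂ | 1 / 2 < s.re})
    (h1 : L 1 ≠ 0) (h2 : ∀ s : ℂ, 3 / 2 < s.re → L s = E.LSeries s) : RankConjecture E := by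
  have h0 := finrank_zero E h
  have hopen : IsOpen {s : ℂ | 1 / 2 < s.re} := isOpen_lt continuous_const Complex.continuous_re
  have hconv : Convex ℝ {s : ℂ | 1 / 2 < s.re} := convex_halfSpace_re_gt _
  have h1m : (1 : ℂ) ∈ {s : ℂ | 1 / 2 < s.re} := by
    show (1 : ℝ) / 2 < (1 : ℂ).re
    rw [Complex.one_re]; norm_num
  refine ⟨{s : ℂ | 1 / 2 < s.re}, L, hopen, ⟨⟨1, h1m⟩, hconv.isPreconnected⟩, ?_, h1m,
    hL.analyticOnNhd hopen, h2, ?_, ?_⟩
  · intro s hs
    have hs' : (3 / 2 : ℝ) < s.re := hs
    show (1 : ℝ) / 2 < s.re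
    linarith
  · intro r hr
    rw [h0] at hr
    exact absurd hr (Nat.not_lt_zero r)
  · rw [h0, iteratedDeriv_zero]
    exact h1

/-- Every elliptic curve over `ℚ(i)` with `j = 1728` is isomorphic to `y² = x³ + D x` for exactly one
`D` that no fourth power of a prime divides. -/
theorem classification {K : Type} [Field K] [NumberField K] (e : GaussianInt ≃+* 𝓞 K)
    (E : WeierstrassCurve K) [E.IsElliptic] (hj : E.j = 1728) :
    ∃! D : GaussianInt, FourthPowerFree D ∧
      ∃ C : WeierstrassCurve.VariableChange K, C • E = curve e K D := by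
  let _ : Algebra GaussianInt K := ((algebraMap (𝓞 K) K).comp (e : GaussianInt →+* 𝓞 K)).toAlgebra
  have _ : IsFractionRing GaussianInt K := IsFractionRing.of_ringEquiv_left e (fun _ => rfl)
  exact Pool.Agent.Y699.cls1728 E hj

/-! ### The translation -/

theorem norm_le_iff {D : GaussianInt} {X : ℕ} : D.norm ≤ X ↔ H385.nrm D ≤ X := by
  have h := Pool.Agent.L7h3.GX.nrm_int D
  constructor
  · intro h1
    exact_mod_cast (h.trans_le h1)
  · intro h1
    rw [← h]
    exact_mod_cast h1

theorem finite_norm_le (X : ℕ) : {D : GaussianInt | H385.nrm D ≤ X}.Finite := by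
  refine (Pool.Agent.Y699.fin_norm_le X).subset ?_
  intro D h
  have h1 : D.norm ≤ X := norm_le_iff.2 h
  have h0 := GaussianInt.norm_nonneg D
  show D.norm.natAbs ≤ X
  omega

theorem good_iff {D : GaussianInt} : Good D ↔ Pool.Agent.L7h3.QX.GoodX D := Iff.rfl

theorem compatible_iff {D π : GaussianInt} : Compatible D π ↔ Pool.Agent.L7h3.QX.NrX D π := by
  unfold Compatible Pool.Agent.L7h3.QX.NrX SquareMod
  rw [not_exists]

theorem quarticSet_iff {D : GaussianInt} {R : Finset GaussianInt} :
    QuarticSet D R ↔ Pool.Agent.L7h3.QX.QuartX D R := by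
  constructor
  · rintro ⟨h1, h3⟩
    exact ⟨fun J hJ => good_iff.1 (h1 J hJ),
      fun ρ hρ π hπ hd J hJ => compatible_iff.1 (h3 ρ hρ π hπ hd J hJ)⟩
  · intro h
    exact ⟨fun J hJ => good_iff.2 (h.good J hJ),
      fun ρ hρ π hπ hd J hJ => compatible_iff.2 (h.non ρ hρ π hπ hd J hJ)⟩

theorem quadratic_iff {D : GaussianInt} {R : Finset GaussianInt} {δ : GaussianInt} :
    Quadratic D R δ ↔ Pool.Agent.L7h3.QX.QuadX D R δ := by
  constructor
  · rintro ⟨h1, h3⟩
    exact ⟨h1, fun π hπ hd J hJ => compatible_iff.1 (h3 π hπ hd J hJ)⟩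
  · rintro ⟨h1, h3⟩
    exact ⟨h1, fun π hπ hd J hJ => compatible_iff.2 (h3 π hπ hd J hJ)⟩

theorem proved {D : GaussianInt} (h : Good D) : Proved D := by
  refine ⟨?_, ?_⟩
  · rintro ⟨π, hπ, hd, hs⟩
    obtain ⟨P, h1, h2, h3⟩ := Pool.Agent.L7h3.QX.inf_quartx Pool.Agent.L7h97.QX.t_CRX
      Pool.Agent.L7h97.QX.t_LFX (good_iff.1 h) hπ hd hs
    exact ⟨P, h1, h2, fun R hR => quarticSet_iff.2 (h3 R hR)⟩
  · intro K _ _ e R hR F _ _ _ T hT htop
    have hRx := quarticSet_iff.1 hR
    have hD0 : D ≠ 0 := h.1.1.ne_zero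
    have h5 := Pool.Agent.L7h3.QX.crit_x Pool.Agent.L7h3.QD.parts Pool.Agent.L7h3.QX.partsX
      Pool.Agent.L7h97.QX.t_CRX hRx e T
      (fun t ht => (hT t ht).imp (fun ⟨δ, h1, h2⟩ => ⟨δ, quadratic_iff.1 h1, h2⟩) id) htop
    have hne : algebraMap K F ((e D : 𝓞 K) : K) ≠ 0 := by
      rw [map_ne_zero]
      exact Pool.Agent.Y715.Z.em0_ne e hD0
    obtain ⟨L, h6, h7, h8⟩ := Pool.Agent.L7h3.QX.t_FUL F _ hne h5.2
    refine ⟨h5.1, ⟨L, h6, h7, h8⟩, ?_, rank_of _ h5.1 h6 h7 fun s hs => (h8 s hs).2⟩
    rintro ⟨a1, a2, a3, a4⟩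
    obtain ⟨-, L', b1, b2, b3⟩ := Pool.Agent.L7h3.QE.crit_quart
      (Pool.Agent.L7h3.QX.quart_of hRx a1 a2 a3) e T
      (fun t ht => (a4 t ht).imp (fun ⟨δ, h1, h2, h3, h4⟩ =>
        ⟨δ, Pool.Agent.L7h3.QX.quad_of (quadratic_iff.1 h1) h2 h3, h4⟩) id) htop
    exact ⟨L', b1, b2, b3⟩

/-- the parameters that are not divisible by `4` -/
theorem family_subset (X : ℕ) :
    Family X ⊆ {D : GaussianInt | H385.nrm D ≤ X ∧ D ≠ 0 ∧ ¬ (4 : GaussianInt) ∣ D} := by
  rintro D ⟨⟨h1, h2⟩, h3⟩
  refine ⟨norm_le_iff.1 h3, h1, fun h4 => ?_⟩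
  have hpr : Prime (⟨1, 1⟩ : GaussianInt) := by
    rw [← irreducible_iff_prime]
    constructor
    · intro hu
      rw [Zsqrtd.isUnit_iff_norm_isUnit] at hu
      exact absurd (Int.isUnit_iff.1 hu) (by decide)
    · intro a b hab
      have h3 := congrArg Zsqrtd.norm hab
      rw [Zsqrtd.norm_mul] at h3
      have h4 : (⟨1, 1⟩ : GaussianInt).norm = 2 := by decide
      rw [h4] at h3
      have ha := GaussianInt.norm_nonneg a
      have hb := GaussianInt.norm_nonneg b
      have h5 : a.norm ∣ 2 := ⟨_, h3⟩
      have h6 : a.norm ≤ 2 := Int.le_of_dvd (by norm_num) h5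
      have h7 : a.norm = 1 ∨ a.norm = 2 := by
        have h8 : a.norm ≠ 0 := by
          intro h0
          rw [h0, zero_mul] at h3
          exact absurd h3 (by norm_num)
        omega
      rcases h7 with h7 | h7
      · left
        rw [Zsqrtd.isUnit_iff_norm_isUnit, h7]
        exact isUnit_one
      · right
        have h8 : b.norm = 1 := by rw [h7] at h3; omega
        rw [Zsqrtd.isUnit_iff_norm_isUnit, h8]
        exact isUnit_one
  apply h2 _ hpr
  have e1 : (⟨1, 1⟩ : GaussianInt) ^ 4 = -4 := by decide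
  rw [e1, neg_dvd]
  exact h4

/-- **Main theorem.**

1. The proportion of the good `D` among the `D` of norm at most `X` in the class tends to
   `∏_{i ≥ 0} (1 - 2^{-(2 i + 1)})`, which is greater than `0.4194`.
2. For all large `X`, the good `D` are at least one seventh of all the Gaussian integers of norm at
   most `X` that no fourth power of a prime divides, so (by 4) of all the elliptic curves over `ℚ(i)`
   with `j`-invariant `1728`.
3. For every good `D` the statement `Proved D` holds: the rank conjecture of Birch and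
   Swinnerton-Dyer for `E_D : y² = x³ + D x` over `ℚ(i)` and over all the Kummer extensions of
   exponent four of `ℚ(i)` described there.
4. Every elliptic curve over `ℚ(i)` with `j`-invariant `1728` is isomorphic to `E_D` for exactly one
   `D` that no fourth power of a prime divides. -/
theorem result :
    (Filter.Tendsto (fun X : ℕ => ({D : GaussianInt | D.norm ≤ X ∧ Good D}.ncard : ℝ) /
      ({D : GaussianInt | D.norm ≤ X ∧ InClass D}.ncard : ℝ)) Filter.atTop
      (nhds (∏' i : ℕ, (1 - (1 / 2 : ℝ) ^ (2 * i + 1)))) ∧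
      0.4194 < ∏' i : ℕ, (1 - (1 / 2 : ℝ) ^ (2 * i + 1))) ∧
    (∃ X₀ : ℕ, ∀ X : ℕ, X₀ ≤ X →
      (1 / 7 : ℝ) * ((Family X).ncard : ℝ) ≤ (({D | D ∈ Family X ∧ Good D}).ncard : ℝ)) ∧
    (∀ D : GaussianInt, Good D → Proved D) ∧
    ∀ (K : Type) [Field K] [NumberField K] (e : GaussianInt ≃+* 𝓞 K) (E : WeierstrassCurve K)
      [E.IsElliptic], E.j = 1728 →
      ∃! D : GaussianInt, FourthPowerFree D ∧
        ∃ C : WeierstrassCurve.VariableChange K, C • E = curve e K D := by
  have h := Pool.Agent.L7h3.QX.t_CMB
  have e1 : ∀ X : ℕ, {D : GaussianInt | D.norm ≤ X ∧ Good D} =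
      {D : H385.ZI | H385.nrm D ≤ X ∧ Pool.Agent.L7h3.QX.GoodX D} := by
    intro X
    ext D
    exact and_congr norm_le_iff good_iff
  have e2 : ∀ X : ℕ, {D : GaussianInt | D.norm ≤ X ∧ InClass D} = {D : H385.ZI |
      H385.nrm D ≤ X ∧ Pool.Agent.L7h3.QX.ClX D} := by
    intro X
    ext D
    exact and_congr norm_le_iff Iff.rfl
  have hc := Pool.Agent.Y948.CQ.t_C2.2.2.2.1
  refine ⟨⟨?_, hc⟩, ?_, fun D h => proved h, fun K _ _ e E _ hj => classification e E hj⟩
  · have e3 : (fun X : ℕ => ({D : GaussianInt | D.norm ≤ X ∧ Good D}.ncard : ℝ) /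
      ({D : GaussianInt | D.norm ≤ X ∧ InClass D}.ncard : ℝ)) = (fun X : ℕ =>
        ({D : H385.ZI | H385.nrm D ≤ X ∧ Pool.Agent.L7h3.QX.GoodX D}.ncard : ℝ) /
        ({D : H385.ZI | H385.nrm D ≤ X ∧ Pool.Agent.L7h3.QX.ClX D}.ncard : ℝ)) := by
      funext X
      rw [e1 X, e2 X]
    rw [e3]
    exact h
  · have hc' : (0.4194 : ℝ) < Pool.Agent.Y703.CQ.c2 := hc
    have hev := h.eventually (lt_mem_nhds hc')
    obtain ⟨X₁, hX₁⟩ := Filter.eventually_atTop.1 hev
    obtain ⟨X₂, hX₂⟩ := Pool.Agent.L7h3.QX.t_CT7
    refine ⟨max X₁ X₂, fun X hX => ?_⟩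
    have h1 := hX₁ X ((le_max_left _ _).trans hX)
    have h2 := hX₂ X ((le_max_right _ _).trans hX)
    have hgood : {D | D ∈ Family X ∧ Good D} =
        {D : H385.ZI | H385.nrm D ≤ X ∧ Pool.Agent.L7h3.QX.GoodX D} := by
      ext D
      constructor
      · rintro ⟨⟨-, h3⟩, h4⟩
        exact ⟨norm_le_iff.1 h3, good_iff.1 h4⟩
      · rintro ⟨h3, h4⟩
        refine ⟨⟨⟨h4.1.1.ne_zero, fun π hπ h5 => ?_⟩, norm_le_iff.2 h3⟩, good_iff.2 h4⟩
        exact hπ.not_isUnit (h4.1.1 π (dvd_trans ⟨π ^ 2, by ring⟩ h5))
    rw [hgood]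
    have h3 : ((Family X).ncard : ℝ) ≤
        ({D : GaussianInt | H385.nrm D ≤ X ∧ D ≠ 0 ∧ ¬ (4 : GaussianInt) ∣ D}.ncard : ℝ) := by
      exact_mod_cast Set.ncard_le_ncard (family_subset X)
        ((finite_norm_le X).subset fun D hD => hD.1)
    set A := ({D : H385.ZI | H385.nrm D ≤ X ∧ Pool.Agent.L7h3.QX.GoodX D}.ncard : ℝ) with hA
    set B := ({D : H385.ZI | H385.nrm D ≤ X ∧ Pool.Agent.L7h3.QX.ClX D}.ncard : ℝ) with hB
    have hB0 : 0 < B := by
      have hB1 : (0 : ℝ) ≤ B := Nat.cast_nonneg _
      rcases hB1.eq_or_lt with h4 | h4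
      · exfalso
        have h5 : A / B = 0 := by rw [← h4, div_zero]
        rw [h5] at h1
        norm_num at h1
      · exact h4
    have h4 : 0.4194 * B < A := by
      rwa [lt_div_iff₀ hB0] at h1
    have h5 : (0 : ℝ) ≤ ((Family X).ncard : ℝ) := Nat.cast_nonneg _
    nlinarith

end Pool.Agent.Results.MP_32c55d_nt.QuarticTwistsOneSeventh
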